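import Pool.Agent.W_4b1b5d_h76.UniB

/-!
# Global isothermal coordinates on the torus, the theorem
-/

set_option autoImplicit false

open Filter Topology Set Metric Matrix
open scoped ContDiff

namespace Pool.Agent.U4b

open Pool.Agent.KK

/-- The matrix of `linInv β`. -/
noncomputable def linMat (β : ℂ) : Matrix (Fin 2) (Fin 2) ℝ :=
  !![(1 - β.re) / (1 - ‖β‖ ^ 2), -β.im / (1 - ‖β‖ ^ 2);
    -β.im / (1 - ‖β‖ ^ 2), (1 + β.re) / (1 - ‖β‖ ^ 2)]

theorem linMat_posDef {β : ℂ} (hβ : ‖β‖ < 1) : (linMat β * (linMat β)ᵀ).PosDef := by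
  have h0 : 0 < 1 - ‖β‖ ^ 2 := by nlinarith only [hβ, norm_nonneg β]
  have hd : (linMat β).det = 1 / (1 - ‖β‖ ^ 2) := by
    rw [linMat, Matrix.det_fin_two_of]
    have h1 : ‖β‖ ^ 2 = β.re ^ 2 + β.im ^ 2 := by
      rw [← Complex.normSq_eq_norm_sq, Complex.normSq_apply]
      ring
    field_simp
    rw [h1]
    ring
  have hu : IsUnit (linMat β) := by
    rw [Matrix.isUnit_iff_isUnit_det, hd]
    exact (one_div_pos.2 h0).ne'.isUnit
  have h2 := Matrix.PosDef.mul_conjTranspose_self (linMat β)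
    (Matrix.vecMul_injective_of_isUnit hu)
  rwa [Matrix.conjTranspose_eq_transpose_of_trivial] at h2

theorem linInv_re (β w : ℂ) : (linInv β w).re =
    linMat β 0 0 * w.re + linMat β 0 1 * w.im := by
  rw [linInv, Complex.div_ofReal_re]
  simp [linMat]
  ring

theorem linInv_im (β w : ℂ) : (linInv β w).im =
    linMat β 1 0 * w.re + linMat β 1 1 * w.im := by
  rw [linInv, Complex.div_ofReal_im]
  simp [linMat]
  ring

/-- `linInv` as a linear map. -/
noncomputable def linInvL (β : ℂ) : ℂ →L[ℝ] ℂ :=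
  LinearMap.toContinuousLinearMap
    { toFun := linInv β
      map_add' := linInv_add β
      map_smul' := fun t w => by
        show linInv β (t • w) = t • linInv β w
        rw [Complex.real_smul, Complex.real_smul, linInv_smul] }

theorem linInvL_apply (β w : ℂ) : linInvL β w = linInv β w := rfl

theorem JgJ (a b c u v w z : ℝ) : !![u, v; w, z] * !![a, b; b, c] * (!![u, v; w, z])ᵀ =
    !![a * u ^ 2 + 2 * b * (u * v) + c * v ^ 2, a * (u * w) + b * (u * z + w * v) + c * (v * z);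
      a * (u * w) + b * (u * z + w * v) + c * (v * z),
      a * w ^ 2 + 2 * b * (w * z) + c * z ^ 2] := by
  ext i j
  fin_cases i <;> fin_cases j <;> simp [Matrix.mul_apply, Fin.sum_univ_two] <;> ring

/-- **Global isothermal coordinates on the torus.** -/
theorem exists_isothermal {ginv : (Fin 2 → ℝ) → Matrix (Fin 2) (Fin 2) ℝ}
    (hpos : ∀ x, (ginv x).PosDef) (hsm : ∀ i j, ContDiff ℝ ∞ (fun x => ginv x i j))
    (hper : ∀ (x : Fin 2 → ℝ) (k : Fin 2 → ℤ), ginv (x + fun i => (k i : ℝ)) = ginv x) :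
    ∃ (Φ Ψ : (Fin 2 → ℝ) → (Fin 2 → ℝ)) (lam : (Fin 2 → ℝ) → ℝ)
      (G : Matrix (Fin 2) (Fin 2) ℝ), ContDiff ℝ ∞ Φ ∧ ContDiff ℝ ∞ Ψ ∧
      (∀ x, Ψ (Φ x) = x) ∧ (∀ y, Φ (Ψ y) = y) ∧
      (∀ (x : Fin 2 → ℝ) (k : Fin 2 → ℤ),
        Φ (x + fun i => (k i : ℝ)) = Φ x + fun i => (k i : ℝ)) ∧
      (∀ (x : Fin 2 → ℝ) (k : Fin 2 → ℤ),
        Ψ (x + fun i => (k i : ℝ)) = Ψ x + fun i => (k i : ℝ)) ∧
      G.PosDef ∧ ContDiff ℝ ∞ lam ∧ (∀ x, 0 < lam x) ∧
      (∀ (x : Fin 2 → ℝ) (k : Fin 2 → ℤ), lam (x + fun i => (k i : ℝ)) = lam x) ∧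
      ∀ x, jac Φ x * ginv x * (jac Φ x)ᵀ = lam x • G := by
  -- the entries
  have hsymm : ∀ x, ginv x 1 0 = ginv x 0 1 := fun x => by
    have := (hpos x).isHermitian.apply 0 1
    simpa using this
  have hA : ∀ x, 0 < ginv x 0 0 := fun x => (hpos x).diag_pos
  have hD : ∀ x, 0 < ginv x 0 0 * ginv x 1 1 - ginv x 0 1 ^ 2 := fun x => by
    have := (hpos x).det_pos
    rw [Matrix.det_fin_two, hsymm] at this
    nlinarith only [this]
  have hC : ∀ x, 0 < ginv x 1 1 := fun x => (hpos x).diag_pos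
  -- the Beltrami coefficient
  obtain ⟨μ, hμ⟩ : ∃ μ : ℂ → ℂ, μ = fun z => belt (ginv (ofC z) 0 0) (ginv (ofC z) 0 1)
    (ginv (ofC z) 1 1) := ⟨_, rfl⟩
  have hent : ∀ i j, ContDiff ℝ ∞ (fun z : ℂ => ginv (ofC z) i j) := fun i j =>
    (hsm i j).comp ofC.contDiff
  have hofR : ∀ {f : ℂ → ℝ}, ContDiff ℝ ∞ f → ContDiff ℝ ∞ (fun z => (f z : ℂ)) := by
    intro f hf
    have h0 : ContDiff ℝ ∞ (fun t : ℝ => (t : ℂ)) := Complex.ofRealCLM.contDiff
    exact h0.comp hf
  have hμs : ContDiff ℝ ∞ μ := by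
    rw [hμ]
    unfold belt
    have hsq : ContDiff ℝ ∞ (fun z : ℂ => √(ginv (ofC z) 0 0 * ginv (ofC z) 1 1 -
        ginv (ofC z) 0 1 ^ 2)) :=
      (((hent 0 0).mul (hent 1 1)).sub ((hent 0 1).pow 2)).sqrt (fun z => (hD _).ne')
    have n1 : ContDiff ℝ ∞ (fun z : ℂ => ((ginv (ofC z) 0 0 - ginv (ofC z) 1 1 : ℝ) : ℂ)) :=
      hofR ((hent 0 0).sub (hent 1 1))
    have n2 : ContDiff ℝ ∞ (fun z : ℂ => 2 * ((ginv (ofC z) 0 1 : ℝ) : ℂ) * Complex.I) :=
      (contDiff_const.mul (hofR (hent 0 1))).mul contDiff_const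
    have n3 : ContDiff ℝ ∞ (fun z : ℂ => ((ginv (ofC z) 0 0 + ginv (ofC z) 1 1 +
        2 * √(ginv (ofC z) 0 0 * ginv (ofC z) 1 1 - ginv (ofC z) 0 1 ^ 2) : ℝ) : ℂ)) :=
      hofR (((hent 0 0).add (hent 1 1)).add (contDiff_const.mul hsq))
    simp only [div_eq_mul_inv]
    refine (n1.add n2).neg.mul (n3.inv (fun z => ?_))
    · rw [Ne, Complex.ofReal_eq_zero]
      have h1 := hA (ofC z)
      have h2 := hC (ofC z)
      have h3 := Real.sqrt_nonneg (ginv (ofC z) 0 0 * ginv (ofC z) 1 1 - ginv (ofC z) 0 1 ^ 2)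
      intro h
      linarith only [h1, h2, h3, h]
  have hgp : ∀ z, ∀ v ∈ Lat 0, ginv (ofC (z + v)) = ginv (ofC z) := by
    intro z v hv
    obtain ⟨k, hk⟩ := ofC_lat hv
    rw [map_add, hk, hper]
  have hμp : Per 0 μ := by
    intro z v hv
    rw [hμ]
    show belt (ginv (ofC (z + v)) 0 0) (ginv (ofC (z + v)) 0 1) (ginv (ofC (z + v)) 1 1) = _
    rw [hgp z v hv]
  have hμ1 : ∀ z, ‖μ z‖ < 1 := fun z => by
    rw [hμ]
    exact belt_norm (hA _) (hD _)
  obtain ⟨β, G, Gi, hβ, hG, hGi, hl, hr, hadd, hbel, hpo⟩ := uni_exists hμs hμp hμ1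
  -- the real quadratic forms
  have hGx : ∀ z, Dx G z = Dz G z + Dzb G z := fun z => Dx_eq_Dz G z
  have hGy : ∀ z, Dy G z = Complex.I * (Dz G z - Dzb G z) := fun z => Dy_eq_Dz G z
  have hiso : ∀ z, (ginv (ofC z) 0 0 : ℂ) * (Dx G z) ^ 2 +
      2 * (ginv (ofC z) 0 1 : ℂ) * (Dx G z * Dy G z) + (ginv (ofC z) 1 1 : ℂ) * (Dy G z) ^ 2 = 0 := by
    intro z
    have h1 := belt_eq (a := ginv (ofC z) 0 0) (b := ginv (ofC z) 0 1) (c := ginv (ofC z) 1 1)
      (hA _) (hD _) (p := Dz G z) (q := Dzb G z) (by rw [hbel, hμ])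
    rw [hGx, hGy]
    exact h1
  have hiso1 : ∀ z, ginv (ofC z) 0 0 * ((Dx G z).re ^ 2 - (Dx G z).im ^ 2) +
      2 * ginv (ofC z) 0 1 * ((Dx G z).re * (Dy G z).re - (Dx G z).im * (Dy G z).im) +
      ginv (ofC z) 1 1 * ((Dy G z).re ^ 2 - (Dy G z).im ^ 2) = 0 := by
    intro z
    have h1 := congrArg Complex.re (hiso z)
    simp [pow_two] at h1
    linear_combination h1
  have hiso2 : ∀ z, ginv (ofC z) 0 0 * ((Dx G z).re * (Dx G z).im) +
      ginv (ofC z) 0 1 * ((Dx G z).re * (Dy G z).im + (Dx G z).im * (Dy G z).re) +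
      ginv (ofC z) 1 1 * ((Dy G z).re * (Dy G z).im) = 0 := by
    intro z
    have h1 := congrArg Complex.im (hiso z)
    simp [pow_two] at h1
    linear_combination h1 / 2
  -- smoothness of the partial derivatives
  have hDx : ContDiff ℝ ∞ (Dx G) := by
    unfold Dx
    exact (hG.fderiv_right (m := ∞) (by simp)).clm_apply contDiff_const
  have hDy : ContDiff ℝ ∞ (Dy G) := by
    unfold Dy
    exact (hG.fderiv_right (m := ∞) (by simp)).clm_apply contDiff_const
  -- periodicity of the derivative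
  have hfp : ∀ z, ∀ v ∈ Lat 0, fderiv ℝ G (z + v) = fderiv ℝ G z := by
    intro z v hv
    have h1 : fderiv ℝ (fun y => G (y + v)) z = fderiv ℝ G (z + v) := fderiv_comp_add_right v
    have h2 : (fun y => G (y + v)) = fun y => G y + (v + β * (starRingEnd ℂ) v) :=
      funext fun y => hadd y v hv
    rw [← h1, h2, fderiv_add_const]
  -- the maps
  have hΦd : ∀ x v, fderiv ℝ (fun x => ofC (linInv β (G (toC x)))) x v =
      ofC (linInv β (fderiv ℝ G (toC x) (toC v))) := by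
    intro x v
    have h1 : HasFDerivAt (fun x => ofC (linInv β (G (toC x))))
        (ofC.comp ((linInvL β).comp ((fderiv ℝ G (toC x)).comp toC))) x :=
      ofC.hasFDerivAt.comp x ((linInvL β).hasFDerivAt.comp x
        ((hG.differentiable (by simp) (toC x)).hasFDerivAt.comp x toC.hasFDerivAt))
    rw [h1.fderiv]
    rfl
  refine ⟨fun x => ofC (linInv β (G (toC x))),
    fun y => ofC (Gi (toC y + β * (starRingEnd ℂ) (toC y))),
    fun x => ginv x 0 0 * (Dx G (toC x)).re ^ 2 +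
      2 * ginv x 0 1 * ((Dx G (toC x)).re * (Dy G (toC x)).re) +
      ginv x 1 1 * (Dy G (toC x)).re ^ 2,
    linMat β * (linMat β)ᵀ, ?_, ?_, ?_, ?_, ?_, ?_, linMat_posDef hβ, ?_, ?_, ?_, ?_⟩
  · exact ofC.contDiff.comp ((contDiff_linInv β).comp (hG.comp toC.contDiff))
  · have h1 : ContDiff ℝ ∞ (fun x : ℂ => (starRingEnd ℂ) x) := Complex.conjCLE.contDiff
    exact ofC.contDiff.comp (hGi.comp (toC.contDiff.add
      (contDiff_const.mul (h1.comp toC.contDiff))))
  · intro x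
    show ofC (Gi (toC (ofC (linInv β (G (toC x)))) +
      β * (starRingEnd ℂ) (toC (ofC (linInv β (G (toC x))))))) = x
    rw [toC_ofC, linInv_right hβ, hl, ofC_toC]
  · intro y
    show ofC (linInv β (G (toC (ofC (Gi (toC y + β * (starRingEnd ℂ) (toC y))))))) = y
    rw [toC_ofC, hr, linInv_left hβ, ofC_toC]
  · intro x k
    show ofC (linInv β (G (toC (x + fun i => (k i : ℝ))))) = _
    rw [map_add, hadd _ _ (toC_int k), linInv_add, linInv_left hβ, map_add, ofC_toC]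
  · intro x k
    show ofC (Gi (toC (x + fun i => (k i : ℝ)) +
      β * (starRingEnd ℂ) (toC (x + fun i => (k i : ℝ))))) = _
    have h1 : Gi (toC (x + fun i => (k i : ℝ)) +
        β * (starRingEnd ℂ) (toC (x + fun i => (k i : ℝ)))) =
        Gi (toC x + β * (starRingEnd ℂ) (toC x)) + toC (fun i => (k i : ℝ)) := by
      rw [← hl (Gi (toC x + β * (starRingEnd ℂ) (toC x)) + toC (fun i => (k i : ℝ))),
        hadd _ _ (toC_int k), hr, map_add, map_add]
      congr 1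
      ring
    rw [h1, map_add, ofC_toC]
  · have e1 : ContDiff ℝ ∞ (fun x : Fin 2 → ℝ => (Dx G (toC x)).re) :=
      Complex.reCLM.contDiff.comp (hDx.comp toC.contDiff)
    have e2 : ContDiff ℝ ∞ (fun x : Fin 2 → ℝ => (Dy G (toC x)).re) :=
      Complex.reCLM.contDiff.comp (hDy.comp toC.contDiff)
    exact (((hsm 0 0).mul (e1.pow 2)).add ((contDiff_const.mul (hsm 0 1)).mul (e1.mul e2))).add
      ((hsm 1 1).mul (e2.pow 2))
  · intro x
    have h0 : 0 < ‖Dz G (toC x)‖ ^ 2 - ‖Dzb G (toC x)‖ ^ 2 := hpo _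
    have h1 : ¬ ((Dx G (toC x)).re = 0 ∧ (Dy G (toC x)).re = 0) := by
      rintro ⟨h2, h3⟩
      have h4 : ‖Dz G (toC x)‖ ^ 2 - ‖Dzb G (toC x)‖ ^ 2 =
          (Dx G (toC x)).re * (Dy G (toC x)).im - (Dx G (toC x)).im * (Dy G (toC x)).re := by
        rw [← Complex.normSq_eq_norm_sq, ← Complex.normSq_eq_norm_sq, Complex.normSq_apply,
          Complex.normSq_apply]
        simp only [Dz, Dzb]
        simp [Complex.sub_re, Complex.sub_im, Complex.add_re, Complex.add_im]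
        ring
      rw [h4, h2, h3] at h0
      simp at h0
    obtain ⟨u, hu⟩ : ∃ u, u = (Dx G (toC x)).re := ⟨_, rfl⟩
    obtain ⟨w, hw⟩ : ∃ w, w = (Dy G (toC x)).re := ⟨_, rfl⟩
    rw [← hu, ← hw] at h1
    show 0 < ginv x 0 0 * (Dx G (toC x)).re ^ 2 +
      2 * ginv x 0 1 * ((Dx G (toC x)).re * (Dy G (toC x)).re) +
      ginv x 1 1 * (Dy G (toC x)).re ^ 2
    rw [← hu, ← hw]
    have ha := hA x
    have hd := hD x
    have h5 : ginv x 0 0 * (ginv x 0 0 * u ^ 2 + 2 * ginv x 0 1 * (u * w) + ginv x 1 1 * w ^ 2) =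
        (ginv x 0 0 * u + ginv x 0 1 * w) ^ 2 +
          (ginv x 0 0 * ginv x 1 1 - ginv x 0 1 ^ 2) * w ^ 2 := by ring
    have h6 : 0 < (ginv x 0 0 * u + ginv x 0 1 * w) ^ 2 +
          (ginv x 0 0 * ginv x 1 1 - ginv x 0 1 ^ 2) * w ^ 2 := by
      by_cases hw0 : w = 0
      · have hu0 : u ≠ 0 := fun hu0 => h1 ⟨hu0, hw0⟩
        rw [hw0]
        have : 0 < (ginv x 0 0 * u) ^ 2 := by positivity
        linarith only [this, show (ginv x 0 0 * u + ginv x 0 1 * 0) ^ 2 +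
          (ginv x 0 0 * ginv x 1 1 - ginv x 0 1 ^ 2) * 0 ^ 2 = (ginv x 0 0 * u) ^ 2 by ring]
      · have h7 : 0 < w ^ 2 := by positivity
        have h8 := mul_pos hd h7
        nlinarith only [h8, sq_nonneg (ginv x 0 0 * u + ginv x 0 1 * w)]
    rw [← h5] at h6
    exact pos_of_mul_pos_right h6 ha.le
  · intro x k
    have h1 : fderiv ℝ G (toC (x + fun i => (k i : ℝ))) = fderiv ℝ G (toC x) := by
      rw [map_add, hfp _ _ (toC_int k)]
    show ginv (x + fun i => (k i : ℝ)) 0 0 *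
        (fderiv ℝ G (toC (x + fun i => (k i : ℝ))) 1).re ^ 2 +
      2 * ginv (x + fun i => (k i : ℝ)) 0 1 *
        ((fderiv ℝ G (toC (x + fun i => (k i : ℝ))) 1).re *
          (fderiv ℝ G (toC (x + fun i => (k i : ℝ))) Complex.I).re) +
      ginv (x + fun i => (k i : ℝ)) 1 1 *
        (fderiv ℝ G (toC (x + fun i => (k i : ℝ))) Complex.I).re ^ 2 = _
    rw [h1, hper]
    rfl
  · intro x
    have e0 := hiso1 (toC x)
    have e1 := hiso2 (toC x)
    rw [ofC_toC] at e0 e1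
    obtain ⟨J, hJ⟩ : ∃ J : Matrix (Fin 2) (Fin 2) ℝ,
      J = !![(Dx G (toC x)).re, (Dy G (toC x)).re; (Dx G (toC x)).im, (Dy G (toC x)).im] :=
      ⟨_, rfl⟩
    have h1 : jac (fun x => ofC (linInv β (G (toC x)))) x = linMat β * J := by
      ext i j
      rw [jac, Matrix.of_apply, hΦd, Matrix.mul_apply, Fin.sum_univ_two, hJ]
      fin_cases j
      · show ofC (linInv β (fderiv ℝ G (toC x) (toC (Pi.single 0 1)))) i = _
        rw [toC_single_zero]
        fin_cases i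
        · show (linInv β (Dx G (toC x))).re = _
          rw [linInv_re]
          simp
        · show (linInv β (Dx G (toC x))).im = _
          rw [linInv_im]
          simp
      · show ofC (linInv β (fderiv ℝ G (toC x) (toC (Pi.single 1 1)))) i = _
        rw [toC_single_one]
        fin_cases i
        · show (linInv β (Dy G (toC x))).re = _
          rw [linInv_re]
          simp
        · show (linInv β (Dy G (toC x))).im = _
          rw [linInv_im]
          simp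
    have h2 : J * ginv x * Jᵀ = (ginv x 0 0 * (Dx G (toC x)).re ^ 2 +
      2 * ginv x 0 1 * ((Dx G (toC x)).re * (Dy G (toC x)).re) +
      ginv x 1 1 * (Dy G (toC x)).re ^ 2) • (1 : Matrix (Fin 2) (Fin 2) ℝ) := by
      have h3 : ginv x = !![ginv x 0 0, ginv x 0 1; ginv x 0 1, ginv x 1 1] := by
        conv_lhs => rw [Matrix.eta_fin_two (ginv x), hsymm x]
      rw [hJ, h3, JgJ]
      ext i j
      fin_cases i <;> fin_cases j <;> simp
      · linear_combination e1
      · linear_combination e1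
      · linear_combination -e0
    rw [h1, Matrix.transpose_mul]
    calc linMat β * J * ginv x * (Jᵀ * (linMat β)ᵀ) =
        linMat β * (J * ginv x * Jᵀ) * (linMat β)ᵀ := by
          simp only [Matrix.mul_assoc]
      _ = _ := by
          rw [h2]
          simp

end Pool.Agent.U4b
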