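import Pool.Agent.W_4b1b5d_h76.TrC
import Pool.Agent.W_4b1b5d_h76.UniC

/-!
# Reduction of the frozen statement `S04593` to metrics `μ(x) • G`, `G` constant

`uniformisation`: for every smooth periodic metric and potential there are a diffeomorphism of the
torus and a metric of the form `μ(x) • G` whose Hamiltonian corresponds to the given one under the
cotangent lift; hence `partI_of_isothermal`, `partII_of_isothermal`, `S04593_of_isothermal`.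
-/

set_option autoImplicit false

open Matrix
open scoped ContDiff

namespace Pool.Agent.U4b

/-- Global isothermal coordinates, with the Hamiltonian. -/
theorem uniformisation {ginv : (Fin 2 → ℝ) → Matrix (Fin 2) (Fin 2) ℝ} {U : (Fin 2 → ℝ) → ℝ}
    (hpos : ∀ x, (ginv x).PosDef) (hsm : ∀ i j, ContDiff ℝ (⊤ : ℕ∞) (fun x => ginv x i j))
    (hper : ∀ (x : Fin 2 → ℝ) (k : Fin 2 → ℤ), ginv (x + fun i => (k i : ℝ)) = ginv x)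
    (hU : ContDiff ℝ (⊤ : ℕ∞) U)
    (hUp : ∀ (x : Fin 2 → ℝ) (k : Fin 2 → ℤ), U (x + fun i => (k i : ℝ)) = U x)
    (hUn : ∃ x y, U x ≠ U y) :
    ∃ (Φ Ψ : (Fin 2 → ℝ) → (Fin 2 → ℝ)) (μ : (Fin 2 → ℝ) → ℝ) (G : Matrix (Fin 2) (Fin 2) ℝ)
      (U' : (Fin 2 → ℝ) → ℝ), Dif Φ Ψ ∧ ContDiff ℝ (⊤ : ℕ∞) μ ∧ (∀ x, 0 < μ x) ∧
      (∀ (x : Fin 2 → ℝ) (k : Fin 2 → ℤ), μ (x + fun i => (k i : ℝ)) = μ x) ∧ G.PosDef ∧
      ContDiff ℝ (⊤ : ℕ∞) U' ∧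
      (∀ (x : Fin 2 → ℝ) (k : Fin 2 → ℤ), U' (x + fun i => (k i : ℝ)) = U' x) ∧
      (∃ x y, U' x ≠ U' y) ∧
      (∀ x, U' (Φ x) = U x) ∧
      Rel Φ (Ham ginv U) (Ham (fun x => μ x • G) U') ∧
      Differentiable ℝ (fun z : (Fin 2 → ℝ) × (Fin 2 → ℝ) => Ham ginv U z.1 z.2) ∧
      Differentiable ℝ (fun z : (Fin 2 → ℝ) × (Fin 2 → ℝ) =>
        Ham (fun x => μ x • G) U' z.1 z.2) := by
  obtain ⟨Φ, Ψ, lam, G, h1, h2, h3, h4, h5, h6, hG, hl, hl0, hlp, hM⟩ :=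
    exists_isothermal hpos hsm hper
  have hμ : ContDiff ℝ (⊤ : ℕ∞) (fun y => lam (Ψ y)) := hl.comp h2
  have hU' : ContDiff ℝ (⊤ : ℕ∞) (fun y => U (Ψ y)) := hU.comp h2
  refine ⟨Φ, Ψ, fun y => lam (Ψ y), G, fun y => U (Ψ y), ⟨h1, h2, h3, h4, h5, h6⟩, hμ,
    fun y => hl0 _, fun y k => by
      show lam (Ψ (y + fun i => (k i : ℝ))) = _
      rw [h6, hlp], hG, hU', fun y k => by
      show U (Ψ (y + fun i => (k i : ℝ))) = _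
      rw [h6, hUp], ?_, fun x => by
      show U (Ψ (Φ x)) = U x
      rw [h3], ?_, ?_, ?_⟩
  · obtain ⟨x, y, hxy⟩ := hUn
    refine ⟨Φ x, Φ y, ?_⟩
    show U (Ψ (Φ x)) ≠ U (Ψ (Φ y))
    rwa [h3, h3]
  · apply Ham_rel
    · intro x
      show lam (Ψ (Φ x)) • G = _
      rw [h3, ← hM]
      rfl
    · intro x
      show U (Ψ (Φ x)) = U x
      rw [h3]
  · exact differentiable_Ham hsm hU
  · apply differentiable_Ham
    · intro i j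
      simp only [Matrix.smul_apply, smul_eq_mul]
      exact hμ.mul contDiff_const
    · exact hU'

/-- The isothermal case of part (i). -/
def IsoI : Prop :=
  ∀ (μ : (Fin 2 → ℝ) → ℝ) (G : Matrix (Fin 2) (Fin 2) ℝ) (U : (Fin 2 → ℝ) → ℝ),
    ContDiff ℝ (⊤ : ℕ∞) μ → (∀ x, 0 < μ x) →
    (∀ (x : Fin 2 → ℝ) (k : Fin 2 → ℤ), μ (x + fun i => (k i : ℝ)) = μ x) → G.PosDef →
    ContDiff ℝ (⊤ : ℕ∞) U →
    (∀ (x : Fin 2 → ℝ) (k : Fin 2 → ℤ), U (x + fun i => (k i : ℝ)) = U x) →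
    (∃ x y, U x ≠ U y) → PartI (Ham (fun x => μ x • G) U)

/-- The isothermal case of part (ii). -/
def IsoII : Prop :=
  ∀ (μ : (Fin 2 → ℝ) → ℝ) (G : Matrix (Fin 2) (Fin 2) ℝ) (U : (Fin 2 → ℝ) → ℝ),
    ContDiff ℝ (⊤ : ℕ∞) μ → (∀ x, 0 < μ x) →
    (∀ (x : Fin 2 → ℝ) (k : Fin 2 → ℤ), μ (x + fun i => (k i : ℝ)) = μ x) → G.PosDef →
    ContDiff ℝ (⊤ : ℕ∞) U →
    (∀ (x : Fin 2 → ℝ) (k : Fin 2 → ℤ), U (x + fun i => (k i : ℝ)) = U x) →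
    (∃ x y, U x ≠ U y) → PartII (Ham (fun x => μ x • G) U)

theorem partI_of_isothermal (hI : IsoI) {ginv : (Fin 2 → ℝ) → Matrix (Fin 2) (Fin 2) ℝ}
    {U : (Fin 2 → ℝ) → ℝ} (hpos : ∀ x, (ginv x).PosDef)
    (hsm : ∀ i j, ContDiff ℝ (⊤ : ℕ∞) (fun x => ginv x i j))
    (hper : ∀ (x : Fin 2 → ℝ) (k : Fin 2 → ℤ), ginv (x + fun i => (k i : ℝ)) = ginv x)
    (hU : ContDiff ℝ (⊤ : ℕ∞) U)
    (hUp : ∀ (x : Fin 2 → ℝ) (k : Fin 2 → ℤ), U (x + fun i => (k i : ℝ)) = U x)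
    (hUn : ∃ x y, U x ≠ U y) : PartI (Ham ginv U) := by
  obtain ⟨Φ, Ψ, μ, G, U', hd, h1, h2, h3, h4, h5, h6, h7, -, h8, h9, h10⟩ :=
    uniformisation hpos hsm hper hU hUp hUn
  exact hd.partI h8 h9 h10 (hI μ G U' h1 h2 h3 h4 h5 h6 h7)

theorem partII_of_isothermal (hII : IsoII) {ginv : (Fin 2 → ℝ) → Matrix (Fin 2) (Fin 2) ℝ}
    {U : (Fin 2 → ℝ) → ℝ} (hpos : ∀ x, (ginv x).PosDef)
    (hsm : ∀ i j, ContDiff ℝ (⊤ : ℕ∞) (fun x => ginv x i j))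
    (hper : ∀ (x : Fin 2 → ℝ) (k : Fin 2 → ℤ), ginv (x + fun i => (k i : ℝ)) = ginv x)
    (hU : ContDiff ℝ (⊤ : ℕ∞) U)
    (hUp : ∀ (x : Fin 2 → ℝ) (k : Fin 2 → ℤ), U (x + fun i => (k i : ℝ)) = U x)
    (hUn : ∃ x y, U x ≠ U y) : PartII (Ham ginv U) := by
  obtain ⟨Φ, Ψ, μ, G, U', hd, h1, h2, h3, h4, h5, h6, h7, -, h8, h9, h10⟩ :=
    uniformisation hpos hsm hper hU hUp hUn
  exact hd.partII h8 h9 h10 (hII μ G U' h1 h2 h3 h4 h5 h6 h7)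

/-- **The frozen statement follows from its isothermal case.** -/
theorem S04593_of_isothermal (hI : IsoI) (hII : IsoII) :
  ∀ (ginv : (Fin 2 → ℝ) → Matrix (Fin 2) (Fin 2) ℝ) (U : (Fin 2 → ℝ) → ℝ)
    (H : (Fin 2 → ℝ) → (Fin 2 → ℝ) → ℝ)
    (IsInt : ((Fin 2 → ℝ) → MvPolynomial (Fin 2) ℝ) → Prop),
    (∀ x, (ginv x).PosDef) →
    (∀ i j, ContDiff ℝ (⊤ : ℕ∞) (fun x => ginv x i j)) →
    (∀ (x : Fin 2 → ℝ) (k : Fin 2 → ℤ), ginv (x + fun i => (k i : ℝ)) = ginv x) →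
    ContDiff ℝ (⊤ : ℕ∞) U →
    (∀ (x : Fin 2 → ℝ) (k : Fin 2 → ℤ), U (x + fun i => (k i : ℝ)) = U x) →
    (∃ x y, U x ≠ U y) →
    (∀ x p, H x p = (1 / 2 : ℝ) * ∑ i, ∑ j, ginv x i j * p i * p j + U x) →
    (∀ F : (Fin 2 → ℝ) → MvPolynomial (Fin 2) ℝ, IsInt F ↔
      ((∀ m, ContDiff ℝ (⊤ : ℕ∞) (fun x => (F x).coeff m)) ∧
       (∀ (x : Fin 2 → ℝ) (k : Fin 2 → ℤ), F (x + fun i => (k i : ℝ)) = F x) ∧
       (∃ N : ℕ, ∀ x, (F x).totalDegree ≤ N) ∧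
       (∀ x p : Fin 2 → ℝ, ∑ i : Fin 2,
          (deriv (fun t => H x (Function.update p i t)) (p i) *
              deriv (fun t => MvPolynomial.eval p (F (Function.update x i t))) (x i) -
            deriv (fun t => H (Function.update x i t) p) (x i) *
              deriv (fun t => MvPolynomial.eval (Function.update p i t) (F x)) (p i)) = 0))) →
    (((∃ (F : (Fin 2 → ℝ) → MvPolynomial (Fin 2) ℝ) (n : ℕ), IsInt F ∧ Odd n ∧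
          (∀ x, (F x).totalDegree ≤ n) ∧ (∃ x, (F x).totalDegree = n)) →
        ∃ F : (Fin 2 → ℝ) → MvPolynomial (Fin 2) ℝ, IsInt F ∧
          (∀ x, (F x).totalDegree ≤ 1) ∧ ∃ x, (F x).totalDegree = 1) ∧
     ((∃ (F : (Fin 2 → ℝ) → MvPolynomial (Fin 2) ℝ) (n : ℕ), IsInt F ∧ Even n ∧
          (∀ x, (F x).totalDegree ≤ n) ∧ (∃ x, (F x).totalDegree = n) ∧
          ¬ ∃ q : Polynomial ℝ, ∀ x p, MvPolynomial.eval p (F x) = q.eval (H x p)) →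
        ∃ F : (Fin 2 → ℝ) → MvPolynomial (Fin 2) ℝ, IsInt F ∧
          (∀ x, (F x).totalDegree ≤ 2) ∧
          ¬ ∃ q : Polynomial ℝ, ∀ x p, MvPolynomial.eval p (F x) = q.eval (H x p))) := by
  intro ginv U H IsInt hpos hsm hper hU hUp hUn hH hInt
  have hHe : H = Ham ginv U := by
    funext x p
    exact hH x p
  have hIe : ∀ F, IsInt F ↔ U4b.IsInt (Ham ginv U) F := by
    intro F
    rw [hInt F, hHe]
    rfl
  have hI' := partI_of_isothermal hI hpos hsm hper hU hUp hUn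
  have hII' := partII_of_isothermal hII hpos hsm hper hU hUp hUn
  simp only [hIe, hHe]
  exact ⟨hI', hII'⟩

end Pool.Agent.U4b
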