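import Mathlib

/-!
# Linear substitutions in families of polynomials
-/

set_option autoImplicit false

open MvPolynomial Matrix
open scoped ContDiff

namespace Pool.Agent.U4b

/-- The substitution `p = q M`. -/
noncomputable def lsub (M : Matrix (Fin 2) (Fin 2) ℝ) (P : MvPolynomial (Fin 2) ℝ) :
    MvPolynomial (Fin 2) ℝ :=
  MvPolynomial.aeval (fun i => ∑ j, MvPolynomial.C (M j i) * MvPolynomial.X j) P

theorem eval_lsub (M : Matrix (Fin 2) (Fin 2) ℝ) (P : MvPolynomial (Fin 2) ℝ) (q : Fin 2 → ℝ) :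
    MvPolynomial.eval q (lsub M P) = MvPolynomial.eval (q ᵥ* M) P := by
  have h : (MvPolynomial.eval q).comp (MvPolynomial.aeval (R := ℝ)
      (fun i => ∑ j, MvPolynomial.C (M j i) * MvPolynomial.X j :
        Fin 2 → MvPolynomial (Fin 2) ℝ)).toRingHom = MvPolynomial.eval (q ᵥ* M) := by
    apply MvPolynomial.ringHom_ext
    · intro r
      simp
    · intro i
      simp [Matrix.vecMul, dotProduct, mul_comm]
  exact congrArg (fun f => f P) h

theorem lsub_lsub (M N : Matrix (Fin 2) (Fin 2) ℝ) (P : MvPolynomial (Fin 2) ℝ) :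
    lsub M (lsub N P) = lsub (M * N) P := by
  apply MvPolynomial.funext
  intro q
  rw [eval_lsub, eval_lsub, eval_lsub, Matrix.vecMul_vecMul]

theorem lsub_one (P : MvPolynomial (Fin 2) ℝ) : lsub 1 P = P := by
  apply MvPolynomial.funext
  intro q
  rw [eval_lsub, Matrix.vecMul_one]

theorem lsub_eq_sum (M : Matrix (Fin 2) (Fin 2) ℝ) (P : MvPolynomial (Fin 2) ℝ) :
    lsub M P = ∑ d ∈ P.support, MvPolynomial.C (P.coeff d) *
      ∏ i, (∑ j, MvPolynomial.C (M j i) * MvPolynomial.X j) ^ d i := by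
  rw [lsub, MvPolynomial.aeval_def, MvPolynomial.eval₂_eq']
  rfl

theorem totalDegree_lsub_le (M : Matrix (Fin 2) (Fin 2) ℝ) (P : MvPolynomial (Fin 2) ℝ) :
    (lsub M P).totalDegree ≤ P.totalDegree := by
  rw [lsub_eq_sum]
  apply MvPolynomial.totalDegree_finsetSum_le
  intro d hd
  have h1 : ∀ i, (∑ j, MvPolynomial.C (M j i) * MvPolynomial.X j :
      MvPolynomial (Fin 2) ℝ).totalDegree ≤ 1 := by
    intro i
    apply MvPolynomial.totalDegree_finsetSum_le
    intro j _
    refine (MvPolynomial.totalDegree_mul _ _).trans ?_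
    rw [MvPolynomial.totalDegree_C, MvPolynomial.totalDegree_X]
  refine (MvPolynomial.totalDegree_mul _ _).trans ?_
  rw [MvPolynomial.totalDegree_C, zero_add]
  refine (MvPolynomial.totalDegree_finsetProd _ _).trans ?_
  refine le_trans ?_ (MvPolynomial.le_totalDegree hd)
  rw [Finsupp.sum_fintype _ _ (fun _ => rfl)]
  apply Finset.sum_le_sum
  intro i _
  refine (MvPolynomial.totalDegree_pow _ _).trans ?_
  exact (Nat.mul_le_mul_left _ (h1 i)).trans (by rw [mul_one])

/-- A family of polynomials with smooth coefficients. -/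
def CoefSm (A : (Fin 2 → ℝ) → MvPolynomial (Fin 2) ℝ) : Prop :=
  ∀ m, ContDiff ℝ (⊤ : ℕ∞) (fun x => (A x).coeff m)

theorem CoefSm.mul {A B : (Fin 2 → ℝ) → MvPolynomial (Fin 2) ℝ} (hA : CoefSm A)
    (hB : CoefSm B) : CoefSm (fun x => A x * B x) := by
  intro m
  simp only [MvPolynomial.coeff_mul]
  exact ContDiff.sum (fun k _ => (hA k.1).mul (hB k.2))

theorem CoefSm.sum {ι : Type*} {s : Finset ι} {A : ι → (Fin 2 → ℝ) → MvPolynomial (Fin 2) ℝ}
    (hA : ∀ i ∈ s, CoefSm (A i)) : CoefSm (fun x => ∑ i ∈ s, A i x) := by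
  intro m
  simp only [MvPolynomial.coeff_sum]
  exact ContDiff.sum (fun k hk => hA k hk m)

theorem CoefSm.const (P : MvPolynomial (Fin 2) ℝ) : CoefSm (fun _ => P) := fun _ =>
  contDiff_const

theorem CoefSm.C {f : (Fin 2 → ℝ) → ℝ} (hf : ContDiff ℝ (⊤ : ℕ∞) f) :
    CoefSm (fun x => MvPolynomial.C (f x)) := by
  intro m
  simp only [MvPolynomial.coeff_C]
  by_cases h : 0 = m
  · simpa [h] using hf
  · simp [h, contDiff_const]

theorem CoefSm.pow {A : (Fin 2 → ℝ) → MvPolynomial (Fin 2) ℝ} (hA : CoefSm A) (n : ℕ) :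
    CoefSm (fun x => A x ^ n) := by
  induction n with
  | zero => simpa using CoefSm.const 1
  | succ n ih =>
    simp only [pow_succ]
    exact ih.mul hA

theorem CoefSm.prod {ι : Type*} {s : Finset ι} {A : ι → (Fin 2 → ℝ) → MvPolynomial (Fin 2) ℝ}
    (hA : ∀ i ∈ s, CoefSm (A i)) : CoefSm (fun x => ∏ i ∈ s, A i x) := by
  classical
  induction s using Finset.induction_on with
  | empty => simpa using CoefSm.const 1
  | insert i s hi ih =>
    simp only [Finset.prod_insert hi]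
    exact (hA i (Finset.mem_insert_self _ _)).mul
      (ih (fun j hj => hA j (Finset.mem_insert_of_mem hj)))

theorem support_subset_box {P : MvPolynomial (Fin 2) ℝ} {N : ℕ} (h : P.totalDegree ≤ N) :
    P.support ⊆ Finset.Iic (Finsupp.equivFunOnFinite.symm (fun _ => N)) := by
  intro m hm
  rw [Finset.mem_Iic]
  intro i
  have h1 := (MvPolynomial.le_totalDegree hm).trans h
  rw [Finsupp.sum_fintype _ _ (fun _ => rfl)] at h1
  exact (Finset.single_le_sum (fun _ _ => Nat.zero_le _) (Finset.mem_univ i)).trans h1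

/-- The evaluation of a smooth family is jointly smooth. -/
theorem contDiff_eval {F : (Fin 2 → ℝ) → MvPolynomial (Fin 2) ℝ} (hF : CoefSm F) {N : ℕ}
    (hN : ∀ x, (F x).totalDegree ≤ N) :
    ContDiff ℝ (⊤ : ℕ∞) (fun z : (Fin 2 → ℝ) × (Fin 2 → ℝ) => MvPolynomial.eval z.2 (F z.1)) := by
  have h : (fun z : (Fin 2 → ℝ) × (Fin 2 → ℝ) => MvPolynomial.eval z.2 (F z.1)) =
      fun z => ∑ d ∈ Finset.Iic (Finsupp.equivFunOnFinite.symm (fun _ : Fin 2 => N)),
        (F z.1).coeff d * ∏ i, z.2 i ^ d i := by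
    funext z
    rw [MvPolynomial.eval_eq']
    apply Finset.sum_subset (support_subset_box (hN z.1))
    intro d _ hd
    rw [MvPolynomial.notMem_support_iff.1 hd, zero_mul]
  rw [h]
  refine ContDiff.sum (fun d _ => ?_)
  refine ((hF d).comp contDiff_fst).mul ?_
  exact contDiff_prod (fun i _ => ((contDiff_apply ℝ ℝ i).comp contDiff_snd).pow _)

/-- Smoothness of the coefficients after a smooth substitution. -/
theorem CoefSm.lsub {F : (Fin 2 → ℝ) → MvPolynomial (Fin 2) ℝ} (hF : CoefSm F) {N : ℕ}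
    (hN : ∀ x, (F x).totalDegree ≤ N) {M : (Fin 2 → ℝ) → Matrix (Fin 2) (Fin 2) ℝ}
    (hM : ∀ i j, ContDiff ℝ (⊤ : ℕ∞) (fun x => M x i j)) :
    CoefSm (fun x => lsub (M x) (F x)) := by
  have h : (fun x => U4b.lsub (M x) (F x)) =
      fun x => ∑ d ∈ Finset.Iic (Finsupp.equivFunOnFinite.symm (fun _ : Fin 2 => N)),
        MvPolynomial.C ((F x).coeff d) *
          ∏ i, (∑ j, MvPolynomial.C (M x j i) * MvPolynomial.X j) ^ d i := by
    funext x
    rw [lsub_eq_sum]
    apply Finset.sum_subset (support_subset_box (hN x))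
    intro d _ hd
    rw [MvPolynomial.notMem_support_iff.1 hd, map_zero, zero_mul]
  rw [h]
  refine CoefSm.sum (fun d _ => (CoefSm.C (hF d)).mul (CoefSm.prod (fun i _ =>
    (CoefSm.sum (fun j _ => (CoefSm.C (hM j i)).mul (CoefSm.const _))).pow _)))

theorem CoefSm.comp {F : (Fin 2 → ℝ) → MvPolynomial (Fin 2) ℝ} (hF : CoefSm F)
    {Ψ : (Fin 2 → ℝ) → (Fin 2 → ℝ)} (hΨ : ContDiff ℝ (⊤ : ℕ∞) Ψ) :
    CoefSm (fun x => F (Ψ x)) := fun m => (hF m).comp hΨ

end Pool.Agent.U4b
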