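import Mathlib

/-!
# The Poisson bracket under a change of coordinates
-/

set_option autoImplicit false

open Matrix
open scoped ContDiff

namespace Pool.Agent.U4b

/-- The derivative in the momentum `p i`. -/
noncomputable def dP (A : (Fin 2 → ℝ) → (Fin 2 → ℝ) → ℝ) (x p : Fin 2 → ℝ) (i : Fin 2) : ℝ :=
  deriv (fun t => A x (Function.update p i t)) (p i)

/-- The derivative in the coordinate `x i`. -/
noncomputable def dX (A : (Fin 2 → ℝ) → (Fin 2 → ℝ) → ℝ) (x p : Fin 2 → ℝ) (i : Fin 2) : ℝ :=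
  deriv (fun t => A (Function.update x i t) p) (x i)

/-- The Poisson bracket. -/
noncomputable def PB (A B : (Fin 2 → ℝ) → (Fin 2 → ℝ) → ℝ) (x p : Fin 2 → ℝ) : ℝ :=
  ∑ i : Fin 2, (dP A x p i * dX B x p i - dX A x p i * dP B x p i)

theorem dP_eq {A : (Fin 2 → ℝ) → (Fin 2 → ℝ) → ℝ} {x p : Fin 2 → ℝ}
    {L : (Fin 2 → ℝ) × (Fin 2 → ℝ) →L[ℝ] ℝ}
    (h : HasFDerivAt (fun z : (Fin 2 → ℝ) × (Fin 2 → ℝ) => A z.1 z.2) L (x, p)) (i : Fin 2) :
    dP A x p i = L (0, Pi.single i 1) := by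
  have h1 : HasDerivAt (fun t => (x, Function.update p i t)) ((0 : Fin 2 → ℝ), Pi.single i (1 : ℝ))
      (p i) := (hasDerivAt_const (p i) x).prodMk (hasDerivAt_update p i (p i))
  have h2 : HasFDerivAt (fun z : (Fin 2 → ℝ) × (Fin 2 → ℝ) => A z.1 z.2) L
      (x, Function.update p i (p i)) := by
    rw [Function.update_eq_self]
    exact h
  exact (HasFDerivAt.comp_hasDerivAt (p i) h2 h1).deriv

theorem dX_eq {A : (Fin 2 → ℝ) → (Fin 2 → ℝ) → ℝ} {x p : Fin 2 → ℝ}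
    {L : (Fin 2 → ℝ) × (Fin 2 → ℝ) →L[ℝ] ℝ}
    (h : HasFDerivAt (fun z : (Fin 2 → ℝ) × (Fin 2 → ℝ) => A z.1 z.2) L (x, p)) (i : Fin 2) :
    dX A x p i = L (Pi.single i 1, 0) := by
  have h1 : HasDerivAt (fun t => (Function.update x i t, p)) (Pi.single i (1 : ℝ), (0 : Fin 2 → ℝ))
      (x i) := (hasDerivAt_update x i (x i)).prodMk (hasDerivAt_const (x i) p)
  have h2 : HasFDerivAt (fun z : (Fin 2 → ℝ) × (Fin 2 → ℝ) => A z.1 z.2) L
      (Function.update x i (x i), p) := by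
    rw [Function.update_eq_self]
    exact h
  exact (HasFDerivAt.comp_hasDerivAt (x i) h2 h1).deriv

theorem lin_expand (L : (Fin 2 → ℝ) × (Fin 2 → ℝ) →L[ℝ] ℝ) (u v : Fin 2 → ℝ) :
    L (u, v) = u 0 * L (Pi.single 0 1, 0) + u 1 * L (Pi.single 1 1, 0) +
      (v 0 * L (0, Pi.single 0 1) + v 1 * L (0, Pi.single 1 1)) := by
  have h : (u, v) = u 0 • ((Pi.single 0 1, 0) : (Fin 2 → ℝ) × (Fin 2 → ℝ)) +
      u 1 • ((Pi.single 1 1, 0) : (Fin 2 → ℝ) × (Fin 2 → ℝ)) +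
      (v 0 • ((0, Pi.single 0 1) : (Fin 2 → ℝ) × (Fin 2 → ℝ)) +
        v 1 • ((0, Pi.single 1 1) : (Fin 2 → ℝ) × (Fin 2 → ℝ))) := by
    ext i
    · fin_cases i <;> simp
    · fin_cases i <;> simp
  conv_lhs => rw [h]
  simp only [map_add, map_smul, smul_eq_mul]

/-- The Jacobian matrix. -/
noncomputable def jacM (Φ : (Fin 2 → ℝ) → (Fin 2 → ℝ)) (x : Fin 2 → ℝ) :
    Matrix (Fin 2) (Fin 2) ℝ :=
  Matrix.of fun i j => fderiv ℝ Φ x (Pi.single j 1) i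

theorem jacM_apply (Φ : (Fin 2 → ℝ) → (Fin 2 → ℝ)) (x : Fin 2 → ℝ) (i j : Fin 2) :
    jacM Φ x i j = fderiv ℝ Φ x (Pi.single j 1) i := rfl

theorem jacM_hasFDerivAt {Φ : (Fin 2 → ℝ) → (Fin 2 → ℝ)} (hΦ : ContDiff ℝ (⊤ : ℕ∞) Φ)
    (x : Fin 2 → ℝ) (i j : Fin 2) :
    ∃ L : (Fin 2 → ℝ) →L[ℝ] ℝ, HasFDerivAt (fun x => jacM Φ x i j) L x ∧
      ∀ v, L v = fderiv ℝ (fderiv ℝ Φ) x v (Pi.single j 1) i := by
  have h1 : Differentiable ℝ (fderiv ℝ Φ) :=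
    (hΦ.fderiv_right (m := (⊤ : ℕ∞)) (by simp)).differentiable (by simp)
  have h2 : HasFDerivAt (fun x => fderiv ℝ Φ x (Pi.single j 1))
      ((fderiv ℝ (fderiv ℝ Φ) x).flip (Pi.single j 1)) x := by
    have := (h1 x).hasFDerivAt.clm_apply (hasFDerivAt_const (Pi.single j (1 : ℝ) : Fin 2 → ℝ) x)
    refine this.congr_fderiv ?_
    ext v
    simp
  have h3 := (ContinuousLinearMap.proj (R := ℝ) (φ := fun _ : Fin 2 => ℝ) i).hasFDerivAt.comp x h2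
  exact ⟨_, h3, fun v => rfl⟩

theorem contDiff_jacM {Φ : (Fin 2 → ℝ) → (Fin 2 → ℝ)} (hΦ : ContDiff ℝ (⊤ : ℕ∞) Φ)
    (i j : Fin 2) : ContDiff ℝ (⊤ : ℕ∞) (fun x => jacM Φ x i j) := by
  have h1 : ContDiff ℝ (⊤ : ℕ∞) (fderiv ℝ Φ) := hΦ.fderiv_right (m := (⊤ : ℕ∞)) (by simp)
  have h2 : ContDiff ℝ (⊤ : ℕ∞) (fun x => fderiv ℝ Φ x (Pi.single j 1)) :=
    h1.clm_apply contDiff_const
  exact (contDiff_apply ℝ ℝ i).comp h2

/-- Partial derivatives under the cotangent lift. -/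
theorem lift_deriv {Φ : (Fin 2 → ℝ) → (Fin 2 → ℝ)} (hΦ : ContDiff ℝ (⊤ : ℕ∞) Φ)
    {A A' : (Fin 2 → ℝ) → (Fin 2 → ℝ) → ℝ}
    (hA : Differentiable ℝ (fun z : (Fin 2 → ℝ) × (Fin 2 → ℝ) => A z.1 z.2))
    (hA' : Differentiable ℝ (fun z : (Fin 2 → ℝ) × (Fin 2 → ℝ) => A' z.1 z.2))
    (h : ∀ x q, A' (Φ x) q = A x (q ᵥ* jacM Φ x)) (x q : Fin 2 → ℝ) :
    (∀ j, dP A' (Φ x) q j = dP A x (q ᵥ* jacM Φ x) 0 * jacM Φ x j 0 +
      dP A x (q ᵥ* jacM Φ x) 1 * jacM Φ x j 1) ∧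
    ∀ i, dX A' (Φ x) q 0 * jacM Φ x 0 i + dX A' (Φ x) q 1 * jacM Φ x 1 i =
      dX A x (q ᵥ* jacM Φ x) i +
        (dP A x (q ᵥ* jacM Φ x) 0 * (q 0 * fderiv ℝ (fderiv ℝ Φ) x (Pi.single i 1) (Pi.single 0 1) 0
            + q 1 * fderiv ℝ (fderiv ℝ Φ) x (Pi.single i 1) (Pi.single 0 1) 1) +
         dP A x (q ᵥ* jacM Φ x) 1 * (q 0 * fderiv ℝ (fderiv ℝ Φ) x (Pi.single i 1) (Pi.single 1 1) 0
            + q 1 * fderiv ℝ (fderiv ℝ Φ) x (Pi.single i 1) (Pi.single 1 1) 1)) := by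
  obtain ⟨L, hL⟩ : ∃ L, HasFDerivAt (fun z : (Fin 2 → ℝ) × (Fin 2 → ℝ) => A z.1 z.2) L
    (x, q ᵥ* jacM Φ x) := ⟨_, (hA _).hasFDerivAt⟩
  obtain ⟨L', hL'⟩ : ∃ L', HasFDerivAt (fun z : (Fin 2 → ℝ) × (Fin 2 → ℝ) => A' z.1 z.2) L'
    (Φ x, q) := ⟨_, (hA' _).hasFDerivAt⟩
  simp only [dP_eq hL, dX_eq hL, dP_eq hL', dX_eq hL']
  have hΦ1 : HasFDerivAt Φ (fderiv ℝ Φ x) x := ((hΦ.differentiable (by simp)) x).hasFDerivAt
  constructor
  · intro j
    -- derivative along `q j`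
    have h1 : HasDerivAt (fun t => (x, (Function.update q j t) ᵥ* jacM Φ x))
        ((0 : Fin 2 → ℝ), (Pi.single j (1 : ℝ)) ᵥ* jacM Φ x) (q j) := by
      refine (hasDerivAt_const (q j) x).prodMk ?_
      have h2 := (LinearMap.toContinuousLinearMap
        (Matrix.vecMulLinear (jacM Φ x))).hasFDerivAt (x := Function.update q j (q j))
      exact HasFDerivAt.comp_hasDerivAt (q j) h2 (hasDerivAt_update q j (q j))
    have h3 : HasFDerivAt (fun z : (Fin 2 → ℝ) × (Fin 2 → ℝ) => A z.1 z.2) L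
        (x, (Function.update q j (q j)) ᵥ* jacM Φ x) := by
      rw [Function.update_eq_self]
      exact hL
    have h4 := HasFDerivAt.comp_hasDerivAt (q j) h3 h1
    have h5 : HasDerivAt (fun t => (Φ x, Function.update q j t))
        ((0 : Fin 2 → ℝ), Pi.single j (1 : ℝ)) (q j) :=
      (hasDerivAt_const (q j) (Φ x)).prodMk (hasDerivAt_update q j (q j))
    have h6 : HasFDerivAt (fun z : (Fin 2 → ℝ) × (Fin 2 → ℝ) => A' z.1 z.2) L'
        (Φ x, Function.update q j (q j)) := by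
      rw [Function.update_eq_self]
      exact hL'
    have h7 := HasFDerivAt.comp_hasDerivAt (q j) h6 h5
    have h8 : ((fun z : (Fin 2 → ℝ) × (Fin 2 → ℝ) => A' z.1 z.2) ∘
        fun t => (Φ x, Function.update q j t)) =
        ((fun z : (Fin 2 → ℝ) × (Fin 2 → ℝ) => A z.1 z.2) ∘
          fun t => (x, (Function.update q j t) ᵥ* jacM Φ x)) := by
      funext t
      exact h x _
    rw [h8] at h7
    have h9 := h7.unique h4
    rw [h9, lin_expand L 0]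
    simp
    ring
  · intro i
    obtain ⟨J00, hJ00, e00⟩ := jacM_hasFDerivAt hΦ x 0 0
    obtain ⟨J01, hJ01, e01⟩ := jacM_hasFDerivAt hΦ x 0 1
    obtain ⟨J10, hJ10, e10⟩ := jacM_hasFDerivAt hΦ x 1 0
    obtain ⟨J11, hJ11, e11⟩ := jacM_hasFDerivAt hΦ x 1 1
    have hv : HasFDerivAt (fun x => q ᵥ* jacM Φ x)
        (ContinuousLinearMap.pi ![q 0 • J00 + q 1 • J10, q 0 • J01 + q 1 • J11]) x := by
      rw [hasFDerivAt_pi']
      intro l
      fin_cases l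
      · have h1 := (hJ00.const_mul (q 0)).add (hJ10.const_mul (q 1))
        have h2 : (fun y => (q ᵥ* jacM Φ y) 0) =
            (fun y => q 0 * jacM Φ y 0 0) + fun y => q 1 * jacM Φ y 1 0 := by
          funext y
          simp [Matrix.vecMul, dotProduct, Fin.sum_univ_two]
        rw [← h2] at h1
        refine h1.congr_fderiv ?_
        ext v
        simp
      · have h1 := (hJ01.const_mul (q 0)).add (hJ11.const_mul (q 1))
        have h2 : (fun y => (q ᵥ* jacM Φ y) 1) =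
            (fun y => q 0 * jacM Φ y 0 1) + fun y => q 1 * jacM Φ y 1 1 := by
          funext y
          simp [Matrix.vecMul, dotProduct, Fin.sum_univ_two]
        rw [← h2] at h1
        refine h1.congr_fderiv ?_
        ext v
        simp
    have h1 : HasFDerivAt (fun y => (y, q ᵥ* jacM Φ y)) _ x := (hasFDerivAt_id x).prodMk hv
    have h2 := HasFDerivAt.comp x hL h1
    have h3 : HasFDerivAt (fun y => (Φ y, q)) _ x := hΦ1.prodMk (hasFDerivAt_const q x)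
    have h4 := HasFDerivAt.comp x hL' h3
    have h5 : ((fun z : (Fin 2 → ℝ) × (Fin 2 → ℝ) => A' z.1 z.2) ∘ fun y => (Φ y, q)) =
        ((fun z : (Fin 2 → ℝ) × (Fin 2 → ℝ) => A z.1 z.2) ∘ fun y => (y, q ᵥ* jacM Φ y)) := by
      funext y
      exact h y q
    rw [h5] at h4
    have h6 := congrArg (fun T : (Fin 2 → ℝ) →L[ℝ] ℝ => T (Pi.single i 1)) (h4.unique h2)
    have h7 : L' (fderiv ℝ Φ x (Pi.single i 1), 0) = L (Pi.single i 1,
        ![q 0 * J00 (Pi.single i 1) + q 1 * J10 (Pi.single i 1),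
          q 0 * J01 (Pi.single i 1) + q 1 * J11 (Pi.single i 1)]) := by
      have e1 : (ContinuousLinearMap.pi ![q 0 • J00 + q 1 • J10, q 0 • J01 + q 1 • J11])
          (Pi.single i 1 : Fin 2 → ℝ) =
          ![q 0 * J00 (Pi.single i 1) + q 1 * J10 (Pi.single i 1),
          q 0 * J01 (Pi.single i 1) + q 1 * J11 (Pi.single i 1)] := by
        ext l
        fin_cases l <;> simp
      rw [← e1]
      exact h6
    rw [lin_expand L', lin_expand L] at h7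
    rw [e00, e01, e10, e11] at h7
    simp only [jacM_apply]
    simp only [Pi.zero_apply, zero_mul, add_zero, Matrix.cons_val_zero, Matrix.cons_val_one] at h7
    fin_cases i
    · simp at h7 ⊢
      linear_combination h7
    · simp at h7 ⊢
      linear_combination h7

/-- **Invariance of the Poisson bracket.** -/
theorem PB_lift {Φ : (Fin 2 → ℝ) → (Fin 2 → ℝ)} (hΦ : ContDiff ℝ (⊤ : ℕ∞) Φ)
    {A A' B B' : (Fin 2 → ℝ) → (Fin 2 → ℝ) → ℝ}
    (hA : Differentiable ℝ (fun z : (Fin 2 → ℝ) × (Fin 2 → ℝ) => A z.1 z.2))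
    (hA' : Differentiable ℝ (fun z : (Fin 2 → ℝ) × (Fin 2 → ℝ) => A' z.1 z.2))
    (hB : Differentiable ℝ (fun z : (Fin 2 → ℝ) × (Fin 2 → ℝ) => B z.1 z.2))
    (hB' : Differentiable ℝ (fun z : (Fin 2 → ℝ) × (Fin 2 → ℝ) => B' z.1 z.2))
    (h : ∀ x q, A' (Φ x) q = A x (q ᵥ* jacM Φ x))
    (h' : ∀ x q, B' (Φ x) q = B x (q ᵥ* jacM Φ x)) (x q : Fin 2 → ℝ) :
    PB A' B' (Φ x) q = PB A B x (q ᵥ* jacM Φ x) := by
  obtain ⟨a1, a2⟩ := lift_deriv hΦ hA hA' h x q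
  obtain ⟨b1, b2⟩ := lift_deriv hΦ hB hB' h' x q
  have hs : IsSymmSndFDerivAt ℝ Φ x := (hΦ.contDiffAt).isSymmSndFDerivAt (by
    rw [minSmoothness_of_isRCLikeNormedField]
    exact WithTop.coe_le_coe.2 le_top)
  have hs1 : fderiv ℝ (fderiv ℝ Φ) x (Pi.single 1 1) (Pi.single 0 1) =
      fderiv ℝ (fderiv ℝ Φ) x (Pi.single 0 1) (Pi.single 1 1) := hs _ _
  have a20 := a2 0
  have a21 := a2 1
  have b20 := b2 0
  have b21 := b2 1
  rw [hs1] at a21 b21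
  simp only [PB, Fin.sum_univ_two]
  rw [a1 0, a1 1, b1 0, b1 1]
  linear_combination dP A x (q ᵥ* jacM Φ x) 0 * b20 + dP A x (q ᵥ* jacM Φ x) 1 * b21 -
    dP B x (q ᵥ* jacM Φ x) 0 * a20 - dP B x (q ᵥ* jacM Φ x) 1 * a21

end Pool.Agent.U4b
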