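import Pool.Agent.W_4b1b5d_h76.TrA
import Pool.Agent.W_4b1b5d_h76.TrB

/-!
# Transport of integrals polynomial in the momenta
-/

set_option autoImplicit false

open Matrix
open scoped ContDiff

namespace Pool.Agent.U4b

/-- The Hamiltonian of a metric with potential. -/
noncomputable def Ham (ginv : (Fin 2 → ℝ) → Matrix (Fin 2) (Fin 2) ℝ) (U : (Fin 2 → ℝ) → ℝ)
    (x p : Fin 2 → ℝ) : ℝ :=
  (1 / 2 : ℝ) * ∑ i, ∑ j, ginv x i j * p i * p j + U x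

/-- The integrals of the frozen statement. -/
def IsInt (H : (Fin 2 → ℝ) → (Fin 2 → ℝ) → ℝ) (F : (Fin 2 → ℝ) → MvPolynomial (Fin 2) ℝ) :
    Prop :=
  (∀ m, ContDiff ℝ (⊤ : ℕ∞) (fun x => (F x).coeff m)) ∧
  (∀ (x : Fin 2 → ℝ) (k : Fin 2 → ℤ), F (x + fun i => (k i : ℝ)) = F x) ∧
  (∃ N : ℕ, ∀ x, (F x).totalDegree ≤ N) ∧
  (∀ x p : Fin 2 → ℝ, ∑ i : Fin 2,
    (deriv (fun t => H x (Function.update p i t)) (p i) *
        deriv (fun t => MvPolynomial.eval p (F (Function.update x i t))) (x i) -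
      deriv (fun t => H (Function.update x i t) p) (x i) *
        deriv (fun t => MvPolynomial.eval (Function.update p i t) (F x)) (p i)) = 0)

/-- Part (i) of the frozen statement. -/
def PartI (H : (Fin 2 → ℝ) → (Fin 2 → ℝ) → ℝ) : Prop :=
  (∃ (F : (Fin 2 → ℝ) → MvPolynomial (Fin 2) ℝ) (n : ℕ), IsInt H F ∧ Odd n ∧
      (∀ x, (F x).totalDegree ≤ n) ∧ (∃ x, (F x).totalDegree = n)) →
    ∃ F : (Fin 2 → ℝ) → MvPolynomial (Fin 2) ℝ, IsInt H F ∧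
      (∀ x, (F x).totalDegree ≤ 1) ∧ ∃ x, (F x).totalDegree = 1

/-- Part (ii) of the frozen statement. -/
def PartII (H : (Fin 2 → ℝ) → (Fin 2 → ℝ) → ℝ) : Prop :=
  (∃ (F : (Fin 2 → ℝ) → MvPolynomial (Fin 2) ℝ) (n : ℕ), IsInt H F ∧ Even n ∧
      (∀ x, (F x).totalDegree ≤ n) ∧ (∃ x, (F x).totalDegree = n) ∧
      ¬ ∃ q : Polynomial ℝ, ∀ x p, MvPolynomial.eval p (F x) = q.eval (H x p)) →
    ∃ F : (Fin 2 → ℝ) → MvPolynomial (Fin 2) ℝ, IsInt H F ∧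
      (∀ x, (F x).totalDegree ≤ 2) ∧
      ¬ ∃ q : Polynomial ℝ, ∀ x p, MvPolynomial.eval p (F x) = q.eval (H x p)

/-- A pair of inverse diffeomorphisms of the torus, isotopic to the identity. -/
structure Dif (Φ Ψ : (Fin 2 → ℝ) → (Fin 2 → ℝ)) : Prop where
  sm : ContDiff ℝ (⊤ : ℕ∞) Φ
  sm' : ContDiff ℝ (⊤ : ℕ∞) Ψ
  left : ∀ x, Ψ (Φ x) = x
  right : ∀ y, Φ (Ψ y) = y
  eqv : ∀ (x : Fin 2 → ℝ) (k : Fin 2 → ℤ),
    Φ (x + fun i => (k i : ℝ)) = Φ x + fun i => (k i : ℝ)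
  eqv' : ∀ (x : Fin 2 → ℝ) (k : Fin 2 → ℤ),
    Ψ (x + fun i => (k i : ℝ)) = Ψ x + fun i => (k i : ℝ)

theorem Dif.symm {Φ Ψ : (Fin 2 → ℝ) → (Fin 2 → ℝ)} (h : Dif Φ Ψ) : Dif Ψ Φ :=
  ⟨h.sm', h.sm, h.right, h.left, h.eqv', h.eqv⟩

theorem Dif.fderiv_comp {Φ Ψ : (Fin 2 → ℝ) → (Fin 2 → ℝ)} (h : Dif Φ Ψ) (y v : Fin 2 → ℝ) :
    fderiv ℝ Ψ y (fderiv ℝ Φ (Ψ y) v) = v := by
  have h1 : HasFDerivAt Φ (fderiv ℝ Φ (Ψ y)) (Ψ y) :=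
    ((h.sm.differentiable (by simp)) (Ψ y)).hasFDerivAt
  have h2 : HasFDerivAt Ψ (fderiv ℝ Ψ y) (Φ (Ψ y)) := by
    rw [h.right]
    exact ((h.sm'.differentiable (by simp)) y).hasFDerivAt
  have h3 := h2.comp (Ψ y) h1
  have h4 : Ψ ∘ Φ = id := funext fun x => h.left x
  rw [h4] at h3
  have h5 := h3.unique (hasFDerivAt_id (Ψ y))
  exact congrArg (fun T : (Fin 2 → ℝ) →L[ℝ] (Fin 2 → ℝ) => T v) h5

theorem Dif.jac_mul {Φ Ψ : (Fin 2 → ℝ) → (Fin 2 → ℝ)} (h : Dif Φ Ψ) (y : Fin 2 → ℝ) :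
    jacM Ψ y * jacM Φ (Ψ y) = 1 := by
  ext i j
  have h1 := congrFun (h.fderiv_comp y (Pi.single j 1)) i
  obtain ⟨w, hw⟩ : ∃ w, w = fderiv ℝ Φ (Ψ y) (Pi.single j 1) := ⟨_, rfl⟩
  have h2 : fderiv ℝ Ψ y w = w 0 • fderiv ℝ Ψ y (Pi.single 0 1) +
      w 1 • fderiv ℝ Ψ y (Pi.single 1 1) := by
    rw [← map_smul, ← map_smul, ← map_add]
    congr 1
    ext l
    fin_cases l <;> simp
  rw [← hw, h2] at h1
  rw [Matrix.mul_apply, Fin.sum_univ_two]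
  simp only [jacM_apply]
  rw [← hw, Matrix.one_apply]
  simp only [Pi.add_apply, Pi.smul_apply, smul_eq_mul] at h1
  rw [mul_comm (fderiv ℝ Ψ y (Pi.single 0 1) i), mul_comm (fderiv ℝ Ψ y (Pi.single 1 1) i), h1,
    Pi.single_apply]

theorem Dif.jac_periodic {Φ Ψ : (Fin 2 → ℝ) → (Fin 2 → ℝ)} (h : Dif Φ Ψ) (x : Fin 2 → ℝ)
    (k : Fin 2 → ℤ) : jacM Φ (x + fun i => (k i : ℝ)) = jacM Φ x := by
  have h1 : fderiv ℝ (fun y => Φ (y + fun i => (k i : ℝ))) x =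
      fderiv ℝ Φ (x + fun i => (k i : ℝ)) := fderiv_comp_add_right _
  have h2 : (fun y => Φ (y + fun i => (k i : ℝ))) = fun y => Φ y + fun i => (k i : ℝ) :=
    funext fun y => h.eqv y k
  rw [h2, fderiv_add_const] at h1
  ext i j
  rw [jacM_apply, jacM_apply, ← h1]

/-- The transport of a family of polynomials in the momenta. -/
noncomputable def push (Φ Ψ : (Fin 2 → ℝ) → (Fin 2 → ℝ))
    (F : (Fin 2 → ℝ) → MvPolynomial (Fin 2) ℝ) (y : Fin 2 → ℝ) : MvPolynomial (Fin 2) ℝ :=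
  lsub (jacM Φ (Ψ y)) (F (Ψ y))

theorem Dif.push_push {Φ Ψ : (Fin 2 → ℝ) → (Fin 2 → ℝ)} (h : Dif Φ Ψ)
    (F : (Fin 2 → ℝ) → MvPolynomial (Fin 2) ℝ) (x : Fin 2 → ℝ) :
    push Ψ Φ (push Φ Ψ F) x = F x := by
  rw [push, push, lsub_lsub, h.jac_mul, lsub_one, h.left]

theorem Dif.push_eval {Φ Ψ : (Fin 2 → ℝ) → (Fin 2 → ℝ)} (h : Dif Φ Ψ)
    (F : (Fin 2 → ℝ) → MvPolynomial (Fin 2) ℝ) (x q : Fin 2 → ℝ) :
    MvPolynomial.eval q (push Φ Ψ F (Φ x)) = MvPolynomial.eval (q ᵥ* jacM Φ x) (F x) := by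
  rw [push, eval_lsub, h.left]

theorem push_degree_le (Φ Ψ : (Fin 2 → ℝ) → (Fin 2 → ℝ))
    (F : (Fin 2 → ℝ) → MvPolynomial (Fin 2) ℝ) (y : Fin 2 → ℝ) :
    (push Φ Ψ F y).totalDegree ≤ (F (Ψ y)).totalDegree := totalDegree_lsub_le _ _

theorem Dif.push_degree {Φ Ψ : (Fin 2 → ℝ) → (Fin 2 → ℝ)} (h : Dif Φ Ψ)
    (F : (Fin 2 → ℝ) → MvPolynomial (Fin 2) ℝ) (x : Fin 2 → ℝ) :
    (push Φ Ψ F (Φ x)).totalDegree = (F x).totalDegree := by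
  apply le_antisymm
  · have := push_degree_le Φ Ψ F (Φ x)
    rwa [h.left] at this
  · have := push_degree_le Ψ Φ (push Φ Ψ F) x
    rwa [h.push_push] at this

/-- The relation between two Hamiltonians. -/
def Rel (Φ : (Fin 2 → ℝ) → (Fin 2 → ℝ)) (H H' : (Fin 2 → ℝ) → (Fin 2 → ℝ) → ℝ) : Prop :=
  ∀ x q, H' (Φ x) q = H x (q ᵥ* jacM Φ x)

theorem Dif.rel_symm {Φ Ψ : (Fin 2 → ℝ) → (Fin 2 → ℝ)} (h : Dif Φ Ψ)
    {H H' : (Fin 2 → ℝ) → (Fin 2 → ℝ) → ℝ} (hr : Rel Φ H H') : Rel Ψ H' H := by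
  intro y p
  have h1 := hr (Ψ y) (p ᵥ* jacM Ψ y)
  rw [h.right, Matrix.vecMul_vecMul, h.jac_mul, Matrix.vecMul_one] at h1
  exact h1.symm

theorem Dif.isInt_push {Φ Ψ : (Fin 2 → ℝ) → (Fin 2 → ℝ)} (h : Dif Φ Ψ)
    {H H' : (Fin 2 → ℝ) → (Fin 2 → ℝ) → ℝ} (hr : Rel Φ H H')
    (hH : Differentiable ℝ (fun z : (Fin 2 → ℝ) × (Fin 2 → ℝ) => H z.1 z.2))
    (hH' : Differentiable ℝ (fun z : (Fin 2 → ℝ) × (Fin 2 → ℝ) => H' z.1 z.2))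
    {F : (Fin 2 → ℝ) → MvPolynomial (Fin 2) ℝ} (hF : IsInt H F) : IsInt H' (push Φ Ψ F) := by
  obtain ⟨h1, h2, ⟨N, hN⟩, h4⟩ := hF
  have hc : CoefSm (push Φ Ψ F) :=
    (CoefSm.comp h1 h.sm').lsub (fun x => hN (Ψ x))
      (fun i j => (contDiff_jacM h.sm i j).comp h.sm')
  have hN' : ∀ y, (push Φ Ψ F y).totalDegree ≤ N := fun y =>
    (push_degree_le Φ Ψ F y).trans (hN _)
  refine ⟨hc, ?_, ⟨N, hN'⟩, ?_⟩
  · intro y k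
    rw [push, push, h.eqv', h.jac_periodic, h2]
  · intro y q
    have hd : Differentiable ℝ (fun z : (Fin 2 → ℝ) × (Fin 2 → ℝ) =>
        MvPolynomial.eval z.2 (F z.1)) := (contDiff_eval h1 hN).differentiable (by simp)
    have hd' : Differentiable ℝ (fun z : (Fin 2 → ℝ) × (Fin 2 → ℝ) =>
        MvPolynomial.eval z.2 (push Φ Ψ F z.1)) :=
      (contDiff_eval hc hN').differentiable (by simp)
    have h5 := PB_lift h.sm hH hH' (B := fun x p => MvPolynomial.eval p (F x))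
      (B' := fun x p => MvPolynomial.eval p (push Φ Ψ F x)) hd hd' hr
      (fun x q => h.push_eval F x q) (Ψ y) q
    rw [h.right] at h5
    have h6 : PB H (fun x p => MvPolynomial.eval p (F x)) (Ψ y) (q ᵥ* jacM Φ (Ψ y)) = 0 :=
      h4 _ _
    rw [h6] at h5
    exact h5

theorem Dif.poly_push {Φ Ψ : (Fin 2 → ℝ) → (Fin 2 → ℝ)} (h : Dif Φ Ψ)
    {H H' : (Fin 2 → ℝ) → (Fin 2 → ℝ) → ℝ} (hr : Rel Φ H H')
    {F : (Fin 2 → ℝ) → MvPolynomial (Fin 2) ℝ}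
    (hF : ∃ q : Polynomial ℝ, ∀ x p, MvPolynomial.eval p (F x) = q.eval (H x p)) :
    ∃ q : Polynomial ℝ, ∀ x p, MvPolynomial.eval p (push Φ Ψ F x) = q.eval (H' x p) := by
  obtain ⟨Q, hQ⟩ := hF
  refine ⟨Q, fun y q => ?_⟩
  have h1 := h.push_eval F (Ψ y) q
  have h2 := hr (Ψ y) q
  rw [h.right] at h1 h2
  rw [h1, hQ, h2]

theorem Dif.partI {Φ Ψ : (Fin 2 → ℝ) → (Fin 2 → ℝ)} (h : Dif Φ Ψ)
    {H H' : (Fin 2 → ℝ) → (Fin 2 → ℝ) → ℝ} (hr : Rel Φ H H')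
    (hH : Differentiable ℝ (fun z : (Fin 2 → ℝ) × (Fin 2 → ℝ) => H z.1 z.2))
    (hH' : Differentiable ℝ (fun z : (Fin 2 → ℝ) × (Fin 2 → ℝ) => H' z.1 z.2))
    (hp : PartI H') : PartI H := by
  rintro ⟨F, n, hF, hn, hle, x, hx⟩
  obtain ⟨F', hF', hle', y, hy⟩ := hp ⟨push Φ Ψ F, n, h.isInt_push hr hH hH' hF, hn,
    fun y => (push_degree_le Φ Ψ F y).trans (hle _), Φ x, by rw [h.push_degree, hx]⟩
  exact ⟨push Ψ Φ F', h.symm.isInt_push (h.rel_symm hr) hH' hH hF',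
    fun x => (push_degree_le Ψ Φ F' x).trans (hle' _), Ψ y, by rw [h.symm.push_degree, hy]⟩

theorem Dif.partII {Φ Ψ : (Fin 2 → ℝ) → (Fin 2 → ℝ)} (h : Dif Φ Ψ)
    {H H' : (Fin 2 → ℝ) → (Fin 2 → ℝ) → ℝ} (hr : Rel Φ H H')
    (hH : Differentiable ℝ (fun z : (Fin 2 → ℝ) × (Fin 2 → ℝ) => H z.1 z.2))
    (hH' : Differentiable ℝ (fun z : (Fin 2 → ℝ) × (Fin 2 → ℝ) => H' z.1 z.2))
    (hp : PartII H') : PartII H := by
  rintro ⟨F, n, hF, hn, hle, ⟨x, hx⟩, hq⟩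
  have hback : ∀ G : (Fin 2 → ℝ) → MvPolynomial (Fin 2) ℝ, push Ψ Φ (push Φ Ψ G) = G :=
    fun G => funext fun x => h.push_push G x
  have hback' : ∀ G : (Fin 2 → ℝ) → MvPolynomial (Fin 2) ℝ, push Φ Ψ (push Ψ Φ G) = G :=
    fun G => funext fun x => h.symm.push_push G x
  obtain ⟨F', hF', hle', hq'⟩ := hp ⟨push Φ Ψ F, n, h.isInt_push hr hH hH' hF, hn,
    fun y => (push_degree_le Φ Ψ F y).trans (hle _), ⟨Φ x, by rw [h.push_degree, hx]⟩,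
    fun hQ => hq (by
      have := h.symm.poly_push (h.rel_symm hr) hQ
      rwa [hback] at this)⟩
  exact ⟨push Ψ Φ F', h.symm.isInt_push (h.rel_symm hr) hH' hH hF',
    fun x => (push_degree_le Ψ Φ F' x).trans (hle' _), fun hQ => hq' (by
      have := h.poly_push hr hQ
      rwa [hback'] at this)⟩

theorem differentiable_Ham {ginv : (Fin 2 → ℝ) → Matrix (Fin 2) (Fin 2) ℝ}
    {U : (Fin 2 → ℝ) → ℝ} (hsm : ∀ i j, ContDiff ℝ (⊤ : ℕ∞) (fun x => ginv x i j))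
    (hU : ContDiff ℝ (⊤ : ℕ∞) U) :
    Differentiable ℝ (fun z : (Fin 2 → ℝ) × (Fin 2 → ℝ) => Ham ginv U z.1 z.2) := by
  have h1 : ContDiff ℝ (⊤ : ℕ∞)
      (fun z : (Fin 2 → ℝ) × (Fin 2 → ℝ) => Ham ginv U z.1 z.2) := by
    unfold Ham
    have h2 : ∀ i, ContDiff ℝ (⊤ : ℕ∞) (fun z : (Fin 2 → ℝ) × (Fin 2 → ℝ) => z.2 i) := fun i =>
      (contDiff_apply ℝ ℝ i).comp contDiff_snd
    refine (contDiff_const.mul (ContDiff.sum (fun i _ => ContDiff.sum (fun j _ => ?_)))).add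
      (hU.comp contDiff_fst)
    exact ((((hsm i j).comp contDiff_fst).mul (h2 i)).mul (h2 j))
  exact h1.differentiable (by simp)

theorem Ham_rel {Φ : (Fin 2 → ℝ) → (Fin 2 → ℝ)} {ginv ginv' : (Fin 2 → ℝ) → Matrix (Fin 2) (Fin 2) ℝ}
    {U U' : (Fin 2 → ℝ) → ℝ} (h1 : ∀ x, ginv' (Φ x) = jacM Φ x * ginv x * (jacM Φ x)ᵀ)
    (h2 : ∀ x, U' (Φ x) = U x) : Rel Φ (Ham ginv U) (Ham ginv' U') := by
  intro x q
  rw [Ham, Ham, h1, h2]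
  congr 2
  simp only [Matrix.mul_apply, Fin.sum_univ_two, Matrix.vecMul, dotProduct, Matrix.transpose_apply]
  ring

end Pool.Agent.U4b
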