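import Pool.Agent.W_bb4b37_h53.BeltramiG
import Pool.Agent.W_bb4b37_h53.DiffeoA
import Pool.Agent.W_bb4b37_h53.DiffeoB

/-!
# Global solutions of the Beltrami equation on the torus, `‖μ‖ ≤ k < 1`
-/

set_option autoImplicit false

open Filter Topology Set MeasureTheory Metric
open scoped ContDiff

namespace Pool.Agent.U4b

open Pool.Agent.KK

theorem beltrami_exists_lt {μ : ℂ → ℂ} {k : ℝ} (hk1 : k < 1) (hμ : ContDiff ℝ ∞ μ)
    (hμp : Per 0 μ) (hμk : ∀ z, ‖μ z‖ ≤ k) :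
    ∃ (β : ℂ) (φ : ℂ → ℂ), ContDiff ℝ ∞ φ ∧ Per 0 φ ∧
      (∀ x, Dzb (normalForm β φ) x = μ x * Dz (normalForm β φ) x) ∧
      (∀ x, Dz (normalForm β φ) x ≠ 0) ∧ ‖β‖ < 1 := by
  have hk0 : 0 ≤ k := (norm_nonneg _).trans (hμk 0)
  have hμc := hμ.continuous
  obtain ⟨f, hf, hfp, hfe⟩ := log_solution hk1 hμ hμp hμk
  obtain ⟨E, hE⟩ : ∃ E : ℂ → ℂ, E = fun y => Complex.exp (f y) := ⟨_, rfl⟩
  have hEs : ContDiff ℝ ∞ E := by
    rw [hE]
    exact hf.cexp
  have hEp : Per 0 E := by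
    intro z v hv
    rw [hE]
    show Complex.exp (f (z + v)) = Complex.exp (f z)
    rw [hfp z v hv]
  have hE0 : ∀ z, E z ≠ 0 := by
    intro z
    rw [hE]
    exact Complex.exp_ne_zero _
  have hME : ContDiff ℝ ∞ (fun y => μ y * E y) := hμ.mul hEs
  have hMEp : Per 0 (fun y => μ y * E y) := by
    intro z v hv
    show μ (z + v) * E (z + v) = μ z * E z
    rw [hμp z v hv, hEp z v hv]
  have hEe : ∀ z, Dzb E z = Dz (fun y => μ y * E y) z := by
    intro z
    rw [Dz_mul ((hμ.differentiable (by simp)) z) ((hEs.differentiable (by simp)) z)]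
    have h1 := BeltramiG_exp hf z
    rw [← hE] at h1
    have h2 : Complex.exp (f z) = E z := by rw [hE]
    rw [h1.1, h1.2, h2, hfe]
    ring
  -- the mean of `E` is not zero
  obtain ⟨c, hc⟩ : ∃ c : ℂ, c = ∫ z in cell, E z := ⟨_, rfl⟩
  have hc0 : c ≠ 0 := by
    intro h0
    obtain ⟨m, hm⟩ : ∃ m : ℂ, m = ∫ z in cell, μ z * E z := ⟨_, rfl⟩
    obtain ⟨φ, hφ, hφp, -, hφ1, hφ2⟩ := exists_potential (p := E)
      (q := fun y => μ y * E y - m) hEs hEp (hME.sub contDiff_const)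
      (fun z v hv => by
        show μ (z + v) * E (z + v) - m = μ z * E z - m
        rw [hμp z v hv, hEp z v hv])
      (fun z => by rw [(BeltramiG_Dzb_sub_const hME m z).2, hEe])
      (by rw [← hc, h0])
      (by
        rw [integral_sub (BeltramiF_integrable hME.continuous)
          (BeltramiF_integrable continuous_const), BeltramiF_integral_const, ← hm, sub_self])
    have h1 := (beltrami_unique hk1 hμ hμp hμk hφ hφp (τ := m)
      (fun z => by rw [hφ2, hφ1])).2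
    have h2 : φ = fun _ => φ 0 := funext h1
    have h3 := hφ1 0
    rw [h2] at h3
    have h4 : Dz (fun _ : ℂ => φ 0) 0 = 0 := by simp [Dz, Dx_const, Dy_const]
    rw [h4] at h3
    exact hE0 0 h3.symm
  obtain ⟨β, hβ⟩ : ∃ β : ℂ, β = ∫ z in cell, μ z * E z / c := ⟨_, rfl⟩
  have hEc : ContDiff ℝ ∞ (fun y => E y / c) := hEs.div_const c
  have hMEc : ContDiff ℝ ∞ (fun y => μ y * E y / c) := hME.div_const c
  obtain ⟨φ, hφ, hφp, hφ0, hφ1, hφ2⟩ := exists_potential (p := fun y => E y / c - 1)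
    (q := fun y => μ y * E y / c - β) (hEc.sub contDiff_const)
    (fun z v hv => by
      show E (z + v) / c - 1 = E z / c - 1
      rw [hEp z v hv])
    (hMEc.sub contDiff_const)
    (fun z v hv => by
      show μ (z + v) * E (z + v) / c - β = μ z * E z / c - β
      rw [hμp z v hv, hEp z v hv])
    (fun z => by
      rw [(BeltramiG_Dzb_sub_const hMEc β z).2, (BeltramiG_Dzb_sub_const hEc 1 z).1,
        (BeltramiG_div_const hME c z).2, (BeltramiG_div_const hEs c z).1, hEe])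
    (by
      rw [integral_sub (BeltramiF_integrable hEc.continuous)
        (BeltramiF_integrable continuous_const), BeltramiF_integral_const, integral_div, ← hc,
        div_self hc0, sub_self])
    (by
      rw [integral_sub (BeltramiF_integrable hMEc.continuous)
        (BeltramiF_integrable continuous_const), BeltramiF_integral_const, ← hβ, sub_self])
  have hz : ∀ x, Dz (normalForm β φ) x = E x / c := by
    intro x
    rw [(BeltramiG_normalForm β hφ x).1, hφ1]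
    ring
  have hzb : ∀ x, Dzb (normalForm β φ) x = μ x * Dz (normalForm β φ) x := by
    intro x
    rw [hz, (BeltramiG_normalForm β hφ x).2, hφ2]
    ring
  have hz0 : ∀ x, Dz (normalForm β φ) x ≠ 0 := fun x => by
    rw [hz]
    exact div_ne_zero (hE0 x) hc0
  refine ⟨β, φ, hφ, hφp, hzb, hz0, ?_⟩
  -- `‖β‖ < 1`
  have hm := BeltramiG_mean_Dz hφ hφp
  have c1 := (BeltramiF_contDiff_Dz hφ).continuous
  have c2 := (BeltramiF_contDiff_Dzb hφ).continuous
  have h1 := BeltramiG_pyth c2 hm.2 β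
  have h2 := BeltramiG_pyth c1 hm.1 1
  have h3 : ∫ z in cell, ‖Dzb φ z + β‖ ^ 2 ≤ ∫ z in cell, k ^ 2 * ‖Dz φ z + 1‖ ^ 2 := by
    refine BeltramiG_mono ((c2.add continuous_const).norm.pow 2)
      (continuous_const.mul ((c1.add continuous_const).norm.pow 2)) (fun z => ?_)
    rw [BeltramiG_eq hφ hzb z, norm_mul, mul_pow, add_comm (Dz φ z) 1]
    exact mul_le_mul_of_nonneg_right (pow_le_pow_left₀ (norm_nonneg _) (hμk z) 2)
      (by positivity)
  rw [integral_const_mul, h1, h2, norm_one, one_pow, ← l2_identity hφ hφp] at h3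
  have h4 : 0 ≤ ∫ z in cell, ‖Dz φ z‖ ^ 2 := integral_nonneg (fun z => by positivity)
  have h5 : k ^ 2 < 1 := by nlinarith only [hk1, hk0]
  have h7 : k ^ 2 * ∫ z in cell, ‖Dz φ z‖ ^ 2 ≤ 1 * ∫ z in cell, ‖Dz φ z‖ ^ 2 :=
    mul_le_mul_of_nonneg_right h5.le h4
  have h8 : ‖β‖ ^ 2 < 1 := by linarith only [h3, h5, h7]
  nlinarith only [h8, norm_nonneg β]


/-- The linear part of the normal form. -/
theorem normalForm_add {β : ℂ} {φ : ℂ → ℂ} (hφp : Per 0 φ) (x : ℂ) {v : ℂ} (hv : v ∈ Lat 0) :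
    normalForm β φ (x + v) = normalForm β φ x + (v + β * (starRingEnd ℂ) v) := by
  simp only [normalForm]
  rw [hφp x v hv, map_add]
  ring

/-- The inverse of `x ↦ x + β x̄`. -/
noncomputable def linInv (β w : ℂ) : ℂ := (w - β * (starRingEnd ℂ) w) / ((1 - ‖β‖ ^ 2 : ℝ) : ℂ)

theorem linInv_left {β : ℂ} (hβ : ‖β‖ < 1) (x : ℂ) :
    linInv β (x + β * (starRingEnd ℂ) x) = x := by
  have h0 : ((1 - ‖β‖ ^ 2 : ℝ) : ℂ) ≠ 0 := by
    rw [Ne, Complex.ofReal_eq_zero]
    nlinarith only [hβ, norm_nonneg β]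
  have h1 : ((1 - ‖β‖ ^ 2 : ℝ) : ℂ) = 1 - β * (starRingEnd ℂ) β := by
    rw [Complex.mul_conj, Complex.normSq_eq_norm_sq]
    push_cast
    ring
  rw [linInv, div_eq_iff h0, h1, map_add, map_mul, Complex.conj_conj]
  ring

theorem linInv_right {β : ℂ} (hβ : ‖β‖ < 1) (w : ℂ) :
    linInv β w + β * (starRingEnd ℂ) (linInv β w) = w := by
  have h0 : ((1 - ‖β‖ ^ 2 : ℝ) : ℂ) ≠ 0 := by
    rw [Ne, Complex.ofReal_eq_zero]
    nlinarith only [hβ, norm_nonneg β]
  have h1 : ((1 - ‖β‖ ^ 2 : ℝ) : ℂ) = 1 - β * (starRingEnd ℂ) β := by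
    rw [Complex.mul_conj, Complex.normSq_eq_norm_sq]
    push_cast
    ring
  rw [linInv, map_div₀, Complex.conj_ofReal, map_sub, map_mul, Complex.conj_conj, mul_div_assoc',
    ← add_div, div_eq_iff h0, h1]
  ring

theorem linInv_add (β w z : ℂ) : linInv β (w + z) = linInv β w + linInv β z := by
  simp only [linInv, map_add]
  ring

theorem linInv_smul (β : ℂ) (t : ℝ) (w : ℂ) : linInv β ((t : ℂ) * w) = (t : ℂ) * linInv β w := by
  simp only [linInv, map_mul, Complex.conj_ofReal]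
  ring

theorem contDiff_linInv (β : ℂ) : ContDiff ℝ ∞ (linInv β) := by
  have h1 : ContDiff ℝ ∞ (fun x : ℂ => (starRingEnd ℂ) x) := Complex.conjCLE.contDiff
  unfold linInv
  exact (contDiff_id.sub (contDiff_const.mul h1)).div_const _

/-- **Global diffeomorphism from the Beltrami equation.** -/
theorem uni_exists {μ : ℂ → ℂ} (hμ : ContDiff ℝ ∞ μ) (hμp : Per 0 μ) (hμk : ∀ z, ‖μ z‖ < 1) :
    ∃ (β : ℂ) (G Gi : ℂ → ℂ), ‖β‖ < 1 ∧ ContDiff ℝ ∞ G ∧ ContDiff ℝ ∞ Gi ∧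
      (∀ x, Gi (G x) = x) ∧ (∀ y, G (Gi y) = y) ∧
      (∀ x, ∀ v ∈ Lat 0, G (x + v) = G x + (v + β * (starRingEnd ℂ) v)) ∧
      (∀ x, Dzb G x = μ x * Dz G x) ∧ (∀ x, 0 < ‖Dz G x‖ ^ 2 - ‖Dzb G x‖ ^ 2) := by
  obtain ⟨z₀, hz₀⟩ := per_exists_max (a := 0) (by norm_num) (f := fun z => ‖μ z‖)
    (fun z v hv => by
      show ‖μ (z + v)‖ = ‖μ z‖
      rw [hμp z v hv]) hμ.continuous.norm
  obtain ⟨β, φ, hφ, hφp, hb, h0, hβ⟩ := beltrami_exists_lt (hμk z₀) hμ hμp hz₀
  have hG : ContDiff ℝ ∞ (normalForm β φ) := by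
    unfold normalForm
    have h1 : ContDiff ℝ ∞ (fun x : ℂ => (starRingEnd ℂ) x) :=
      Complex.conjCLE.contDiff
    exact (contDiff_id.add (contDiff_const.mul h1)).add hφ
  have hd : ∀ x, 0 < ‖Dz (normalForm β φ) x‖ ^ 2 - ‖Dzb (normalForm β φ) x‖ ^ 2 := by
    intro x
    rw [hb, norm_mul, mul_pow]
    have h1 : 0 < ‖Dz (normalForm β φ) x‖ ^ 2 := by
      have := norm_pos_iff.2 (h0 x)
      positivity
    have h2 : ‖μ x‖ ^ 2 < 1 := by nlinarith only [hμk x, norm_nonneg (μ x)]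
    nlinarith only [h1, h2]
  have hdet : ∀ x, 0 < (fderiv ℝ (normalForm β φ) x).det := by
    intro x
    rw [det_fderiv]
    exact hd x
  obtain ⟨Gi, hl, hr⟩ := Function.bijective_iff_has_inverse.1
    (bijective_normalForm hβ hφ hφp hdet)
  exact ⟨β, normalForm β φ, Gi, hβ, hG,
    contDiff_inverse hG (fun x => (hdet x).ne') hl hr, hl, hr,
    fun x v hv => normalForm_add hφp x hv, hb, hd⟩

end Pool.Agent.U4b
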