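import Pool.Agent.W_4b1b5d_h76.UniA

/-!
# Global isothermal coordinates on the torus
-/

set_option autoImplicit false

open Filter Topology Set Metric Matrix
open scoped ContDiff

namespace Pool.Agent.U4b

open Pool.Agent.KK

/-- The Jacobian matrix. -/
noncomputable def jac (Φ : (Fin 2 → ℝ) → (Fin 2 → ℝ)) (x : Fin 2 → ℝ) :
    Matrix (Fin 2) (Fin 2) ℝ :=
  Matrix.of fun i j => fderiv ℝ Φ x (Pi.single j 1) i

/-- `(x₀, x₁) ↦ x₀ + i x₁`. -/
noncomputable def toC : (Fin 2 → ℝ) →L[ℝ] ℂ :=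
  LinearMap.toContinuousLinearMap
    { toFun := fun x => ⟨x 0, x 1⟩
      map_add' := fun x y => by apply Complex.ext <;> simp
      map_smul' := fun c x => by apply Complex.ext <;> simp }

/-- `z ↦ (re z, im z)`. -/
noncomputable def ofC : ℂ →L[ℝ] (Fin 2 → ℝ) :=
  LinearMap.toContinuousLinearMap
    { toFun := fun z => ![z.re, z.im]
      map_add' := fun x y => by ext i; fin_cases i <;> simp
      map_smul' := fun c x => by ext i; fin_cases i <;> simp }

theorem toC_re (x : Fin 2 → ℝ) : (toC x).re = x 0 := rfl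
theorem toC_im (x : Fin 2 → ℝ) : (toC x).im = x 1 := rfl
theorem ofC_zero (z : ℂ) : ofC z 0 = z.re := rfl
theorem ofC_one (z : ℂ) : ofC z 1 = z.im := rfl

theorem ofC_toC (x : Fin 2 → ℝ) : ofC (toC x) = x := by
  ext i; fin_cases i <;> rfl

theorem toC_ofC (z : ℂ) : toC (ofC z) = z := by
  apply Complex.ext <;> rfl

theorem toC_int (k : Fin 2 → ℤ) : toC (fun i => (k i : ℝ)) ∈ Lat 0 := by
  refine ⟨k 0, k 1, ?_⟩
  apply Complex.ext
  · simp [toC_re]
  · simp [toC_im]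

theorem ofC_lat {v : ℂ} (hv : v ∈ Lat 0) : ∃ k : Fin 2 → ℤ, ofC v = fun i => (k i : ℝ) := by
  obtain ⟨m, n, h⟩ := hv
  refine ⟨![m, n], ?_⟩
  ext i
  fin_cases i
  · simp [ofC_zero, h]
  · simp [ofC_one, h]

theorem toC_single_zero : toC (Pi.single 0 1) = 1 := by
  apply Complex.ext <;> simp [toC_re, toC_im]

theorem toC_single_one : toC (Pi.single 1 1) = Complex.I := by
  apply Complex.ext <;> simp [toC_re, toC_im]

/-- The Beltrami coefficient of a quadratic form. -/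
noncomputable def belt (a b c : ℝ) : ℂ :=
  -(((a - c : ℝ) : ℂ) + 2 * (b : ℂ) * Complex.I) /
    ((a + c + 2 * √(a * c - b ^ 2) : ℝ) : ℂ)

theorem belt_norm {a b c : ℝ} (ha : 0 < a) (hd : 0 < a * c - b ^ 2) : ‖belt a b c‖ < 1 := by
  have hc : 0 < c := by
    by_contra h
    push Not at h
    nlinarith only [ha, hd, h, sq_nonneg b, mul_nonneg ha.le (neg_nonneg.2 h)]
  have hD : 0 < √(a * c - b ^ 2) := Real.sqrt_pos.2 hd
  have hD2 : √(a * c - b ^ 2) ^ 2 = a * c - b ^ 2 := Real.sq_sqrt hd.le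
  have hS : 0 < a + c + 2 * √(a * c - b ^ 2) := by positivity
  rw [belt, norm_div, norm_neg, Complex.norm_real, Real.norm_of_nonneg hS.le, div_lt_one hS]
  apply lt_of_pow_lt_pow_left₀ 2 hS.le
  rw [← Complex.normSq_eq_norm_sq]
  have h1 : Complex.normSq (((a - c : ℝ) : ℂ) + 2 * (b : ℂ) * Complex.I) =
      (a - c) ^ 2 + 4 * b ^ 2 := by
    rw [Complex.normSq_apply]
    simp
    ring
  rw [h1]
  nlinarith only [hD, hD2, ha, hc, mul_pos (add_pos ha hc) hD]

theorem belt_eq {a b c : ℝ} (ha : 0 < a) (hd : 0 < a * c - b ^ 2) {p q : ℂ}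
    (h : q = belt a b c * p) :
    (a : ℂ) * (p + q) ^ 2 + 2 * b * ((p + q) * (Complex.I * (p - q))) +
      c * (Complex.I * (p - q)) ^ 2 = 0 := by
  have hc : 0 < c := by
    by_contra h
    push Not at h
    nlinarith only [ha, hd, h, sq_nonneg b, mul_nonneg ha.le (neg_nonneg.2 h)]
  have hD : 0 < √(a * c - b ^ 2) := Real.sqrt_pos.2 hd
  have hD2 : √(a * c - b ^ 2) ^ 2 = a * c - b ^ 2 := Real.sq_sqrt hd.le
  have hS : 0 < a + c + 2 * √(a * c - b ^ 2) := by positivity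
  have hSc : ((a + c + 2 * √(a * c - b ^ 2) : ℝ) : ℂ) ≠ 0 := by
    rw [Ne, Complex.ofReal_eq_zero]
    exact hS.ne'
  obtain ⟨D, hDD⟩ : ∃ D : ℝ, D = √(a * c - b ^ 2) := ⟨_, rfl⟩
  have hm : belt a b c * ((a + c + 2 * √(a * c - b ^ 2) : ℝ) : ℂ) =
      -(((a - c : ℝ) : ℂ) + 2 * (b : ℂ) * Complex.I) := by
    rw [belt, div_mul_cancel₀ _ hSc]
  rw [← hDD] at hm hSc hD2
  have hD2c : (D : ℂ) ^ 2 = a * c - b ^ 2 := by
    rw [← Complex.ofReal_pow, hD2]
    push_cast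
    ring
  obtain ⟨m, hmm⟩ : ∃ m : ℂ, m = belt a b c := ⟨_, rfl⟩
  rw [← hmm] at hm h
  push_cast at hm hSc
  have key : ((a : ℂ) - c - 2 * b * Complex.I) * m ^ 2 + 2 * (a + c) * m +
      (a - c + 2 * b * Complex.I) = 0 := by
    have h2 : ((a : ℂ) + c + 2 * D) ^ 2 ≠ 0 := pow_ne_zero _ hSc
    apply mul_right_cancel₀ h2
    rw [zero_mul]
    have h3 : ((a : ℂ) - c - 2 * b * Complex.I) * (m * (a + c + 2 * D)) ^ 2 +
      2 * (a + c) * (m * (a + c + 2 * D)) * (a + c + 2 * D) +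
      (a - c + 2 * b * Complex.I) * (a + c + 2 * D) ^ 2 = 0 := by
      rw [hm]
      have hI : Complex.I ^ 2 = -1 := Complex.I_sq
      linear_combination (4 * ((a : ℂ) - c + 2 * b * Complex.I)) * hD2c -
        (4 * (b : ℂ) ^ 2 * ((a : ℂ) - c + 2 * b * Complex.I)) * hI
    linear_combination h3
  rw [h]
  linear_combination p ^ 2 * key + (c * (p - m * p) ^ 2) * Complex.I_sq

end Pool.Agent.U4b
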